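import Pool.Agent.Lib.MP_af3a4a_an.P1.CHK.H28.AxPhi

/-!
# The axis item off the ray (council 2, helper28)

The item of kind 4 for the box layer of helper11: `y = (j/Q) e^{-iθ}`, `|R - y| ≤ kap a`,
`arg (R - y)` in `[(oA - 256)/64, (oB - 256)/64]`, `a = A/512`, `A ≤ 255`.
-/

set_option autoImplicit false

namespace Pool.Agent.Lib.MP_af3a4a_an.P1.CHK.H28

open MeasureTheory intervalIntegral ComplexConjugate
open Pool.Agent.Lib.MP_af3a4a_an.SV (uu av sq EE)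
open Pool.Agent.Lib.MP_af3a4a_an.P1.H80
open Pool.Agent.Lib.MP_af3a4a_an.P1.CHK.H80
open Pool.Agent.Lib.MP_af3a4a_an.P1.CHK.Arith
open Pool.Agent.Lib.MP_af3a4a_an.P1.CHK.BOX

/-- minimum -/
def mi (a b : ℕ) : ℕ := bif Nat.ble a b then a else b

theorem mi_le (a b : ℕ) : mi a b ≤ a ∧ mi a b ≤ b := by
  unfold mi
  by_cases h : a ≤ b
  · rw [Nat.ble_eq_true_of_le h, cond_true]
    exact ⟨le_rfl, h⟩
  · have hb' : Nat.ble a b = false := by
      rw [Bool.eq_false_iff, ne_eq, Nat.ble_eq]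
      exact h
    rw [hb', cond_false]
    exact ⟨by omega, le_rfl⟩

theorem le_mi {a b c : ℕ} (h1 : c ≤ a) (h2 : c ≤ b) : c ≤ mi a b := by
  unfold mi
  by_cases h : a ≤ b
  · rw [Nat.ble_eq_true_of_le h, cond_true]
    exact h1
  · have hb' : Nat.ble a b = false := by
      rw [Bool.eq_false_iff, ne_eq, Nat.ble_eq]
      exact h
    rw [hb', cond_false]
    exact h2

theorem cz_low {o i : ℕ} (h : ad i o ≤ 201) :
    1 ≤ cz o i ∧ ((cz o i : ℕ) : ℝ) - 1 - 2 ^ 41 ≤ 2 ^ 40 * Real.cos (((i : ℝ) - o) / 64) := by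
  have h1 := abs_le.1 (cz_spec (show ad i o ≤ 256 by omega))
  have h2 := Real.neg_one_le_cos (((i : ℝ) - o) / 64)
  constructor
  · have h3 : (1 : ℝ) ≤ (cz o i : ℕ) := by
      have := h1.1
      norm_num at this
      linarith
    exact_mod_cast h3
  · linarith [h1.2]

theorem ad_pi {o i : ℕ} (h : ad i o ≤ 201) :
    -Real.pi ≤ ((i : ℝ) - o) / 64 ∧ ((i : ℝ) - o) / 64 ≤ Real.pi := by
  have h1 : ((ad i o : ℕ) : ℝ) ≤ 201 := by exact_mod_cast h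
  rw [ad_cast] at h1
  have h2 := abs_le.1 h1
  have h3 := Real.pi_gt_d6
  constructor
  · rw [le_div_iff₀ (by norm_num)]
    norm_num at h3
    linarith [h2.1]
  · rw [div_le_iff₀ (by norm_num)]
    norm_num at h3
    linarith [h2.2]

/-- the axis item -/
def itAx (Na Nb Q j th oA oB A g0 g1 r0 r1 R0 R1 G : ℕ) : Bool :=
  ev (xK A) fun kL => ev (xL A) fun lL =>
  ev (mi (cz 512 (Nat.add th oA)) (cz 512 (Nat.add th oB))) fun cto =>
  Nat.ble 1 A && (Nat.ble A 255 && (Nat.ble 1 j && (Nat.ble j (Nat.mul 3 Q) &&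
  (Nat.ble R0 4096 && (Nat.ble R1 4096 && (Nat.ble oA oB && (Nat.ble (ad th 256) 201 &&
  (Nat.ble (ad oA 256) 201 && (Nat.ble (ad oB 256) 201 && (Nat.ble (ad (Nat.add th oA) 512) 201 &&
  (Nat.ble (ad (Nat.add th oB) 512) 201 &&
  (Nat.ble (Nat.mul (Nat.mul A j) (Nat.sub (Nat.add 562949953421312 (Nat.mul A 2199023255553))
      (Nat.mul A cto)))
    (Nat.mul (Nat.mul (Nat.mul (Nat.add 512 A) (Nat.sub kL (Nat.add lL 3))) Q) 33554432) &&
  (axGeo kL Q j th oA oB R0 R1 &&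
  (axLog Na A (axX0 A j Q kL lL) &&
    phiX Na Nb A Q j (cz 256 th) (mi (cz 256 oA) (cz 256 oB)) cto (Nat.add g0 oA) (Nat.add g1 oB)
      r0 r1 kL (Nat.add kL 3) (Nat.add lL 3) G))))))))))))))

section sound

variable {N : ℕ} {z w : Fin N → ℂ} {R : ℝ} {σ : Fin N → ℂ}

theorem itAx_sound {Na Nb Q j th oA oB A g0 g1 r0 r1 R0 R1 G : ℕ} (hNa0 : 1 ≤ Na) (hNa : Na ≤ N)
    (hNb : N ≤ Nb) (hQ : 0 < Q) (hg : g0 ≤ g1) (hC : Cfg2 N z w R σ) {r γ : ℝ}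
    (hm : av (uu w) = (r : ℂ) * Complex.exp ((γ : ℂ) * Complex.I))
    (hr0 : (r0 : ℝ) / 4096 ≤ r) (hr1 : r ≤ (r1 : ℝ) / 4096)
    (hγ0 : (g0 : ℝ) / 64 ≤ γ) (hγ1 : γ ≤ (g1 : ℝ) / 64)
    (hR0 : (R0 : ℝ) / 1024 ≤ R) (hR1 : R ≤ (R1 : ℝ) / 1024)
    (hG : (G : ℝ) / 2 ^ 24 ≤ val w th Q j)
    (h : itAx Na Nb Q j th oA oB A g0 g1 r0 r1 R0 R1 G = true) : False := by
  unfold itAx at h
  simp only [ev_eq, Bool.and_eq_true, Nat.ble_eq, Nat.add_eq, Nat.mul_eq, Nat.sub_eq] at h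
  obtain ⟨c1, c2, c3, c4, c5, c6, c7, c8, c9, c10, c11, c12, c13, c14, c15, c16⟩ := h
  have hQr : (0 : ℝ) < Q := by exact_mod_cast hQ
  have hjr : (0 : ℝ) < j := by exact_mod_cast c3
  have hx0 : (0 : ℝ) < (j : ℝ) / Q := by positivity
  have hA1 : (1 : ℝ) ≤ A := by exact_mod_cast c1
  have hA255 : (A : ℝ) ≤ 255 := by exact_mod_cast c2
  have ha0 : 0 ≤ (A : ℝ) / 512 := by positivity
  have ha1 : (A : ℝ) / 512 < 1 := by rw [div_lt_one (by norm_num)]; linarith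
  obtain ⟨x1, x2, x3, x4, x5⟩ := X0_ok c1 c2 c3 hQ hNa0 hNa rfl c15
  obtain ⟨ο, t, o1, o2, hs, t0, t1⟩ := axGeo_sound hQ c4 c5 c6 c7 (by omega) (by omega) (by omega)
    (by omega) c14 hR0 hR1
  have b1 := xK_le c1 c2
  have b2 := kap_le c1 c2
  have b4 := lam_le c1 c2
  have b5 := log_ge c1 c2
  obtain ⟨l1, l2⟩ := cz_low c8
  obtain ⟨l3, l4⟩ := cz_low c9
  obtain ⟨l5, l6⟩ := cz_low c10
  obtain ⟨l7, l8⟩ := cz_low c11
  obtain ⟨l9, l10⟩ := cz_low c12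
  have e0 : (((th + oA : ℕ) : ℝ) - (512 : ℕ)) / 64 =
      ((th : ℝ) - 256) / 64 + ((oA : ℝ) - 256) / 64 := by push_cast; ring
  have e0' : (((th + oB : ℕ) : ℝ) - (512 : ℕ)) / 64 =
      ((th : ℝ) - 256) / 64 + ((oB : ℝ) - 256) / 64 := by push_cast; ring
  have p1 := ad_pi c9
  have p2 := ad_pi c10
  have p3 := ad_pi c11
  have p4 := ad_pi c12
  rw [e0] at l8 p3
  rw [e0'] at l10 p4
  push_cast at l2 l4 l6 p1 p2
  have m1 := mi_le (cz 256 oA) (cz 256 oB)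
  have m2 := mi_le (cz 512 (th + oA)) (cz 512 (th + oB))
  have m3 : 1 ≤ mi (cz 512 (th + oA)) (cz 512 (th + oB)) := le_mi l7 l9
  obtain ⟨co, hco⟩ : ∃ co, co = mi (cz 256 oA) (cz 256 oB) := ⟨_, rfl⟩
  obtain ⟨cto, hcto⟩ : ∃ cto, cto = mi (cz 512 (th + oA)) (cz 512 (th + oB)) := ⟨_, rfl⟩
  rw [← hco] at m1 c16
  rw [← hcto] at m2 m3 c13 c16
  have m1a : (co : ℝ) ≤ (cz 256 oA : ℕ) := by exact_mod_cast m1.1
  have m1b : (co : ℝ) ≤ (cz 256 oB : ℕ) := by exact_mod_cast m1.2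
  have m2a : (cto : ℝ) ≤ (cz 512 (th + oA) : ℕ) := by exact_mod_cast m2.1
  have m2b : (cto : ℝ) ≤ (cz 512 (th + oB) : ℕ) := by exact_mod_cast m2.2
  have hcw : ((co : ℝ) - 1 - 2 ^ 41) / 2 ^ 40 ≤ Real.cos ο := by
    apply cos_ge_min p1.1 p2.2 o1 o2
    · rw [div_le_iff₀ (by norm_num)]; linarith
    · rw [div_le_iff₀ (by norm_num)]; linarith
  have hcs : ((cto : ℝ) - 1 - 2 ^ 41) / 2 ^ 40 ≤ Real.cos (((th : ℝ) - 256) / 64 + ο) := by
    apply cos_ge_min (a := ((th : ℝ) - 256) / 64 + ((oA : ℝ) - 256) / 64)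
      (b := ((th : ℝ) - 256) / 64 + ((oB : ℝ) - 256) / 64) p3.1 p4.2 (by linarith) (by linarith)
    · rw [div_le_iff₀ (by norm_num)]; linarith
    · rw [div_le_iff₀ (by norm_num)]; linarith
  have hphi := phiX_sound (x := γ + ο) (cθ := Real.cos (((th : ℝ) - 256) / 64))
    (cω := Real.cos ο) (cs := Real.cos (((th : ℝ) - 256) / 64 + ο))
    hNa hNb hQ c3 (by omega) hr0 hr1 (by push_cast; linarith) (by push_cast; linarith)
    l1 m3 l2 (by rw [div_le_iff₀ (by norm_num)] at hcw; linarith)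
    (by rw [div_le_iff₀ (by norm_num)] at hcs; linarith) b1 (by push_cast; exact b2)
    (by push_cast; exact b4) c16
  obtain ⟨hGp, hphi⟩ := hphi
  have hGp' : (0 : ℝ) < G := by exact_mod_cast hGp
  have hG0 : (0 : ℝ) < N + 1 := by positivity
  have hy : (A : ℝ) / 512 * ((j : ℝ) / Q - (A : ℝ) / 512 *
      ((j : ℝ) / Q * Real.cos (((th : ℝ) - 256) / 64 + ο))) ≤
      (1 + (A : ℝ) / 512) * Real.log (1 + (A : ℝ) / 512) := by
    have d8 : (A : ℝ) * j * (562949953421312 + A * 2199023255553 - A * cto) ≤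
        (512 + A) * ((xK A - (xL A + 3) : ℕ) : ℝ) * Q * 33554432 := by
      have h1 := sub_le_cast (562949953421312 + A * 2199023255553) (A * cto)
      have h2 : (A : ℝ) * j * ((562949953421312 + A * 2199023255553 - A * cto : ℕ) : ℝ) ≤
          (512 + A) * ((xK A - (xL A + 3) : ℕ) : ℝ) * Q * 33554432 := by exact_mod_cast c13
      push_cast at h1
      refine le_trans ?_ h2
      exact mul_le_mul_of_nonneg_left h1 (by positivity)
    have d8' : ((xK A - (xL A + 3) : ℕ) : ℝ) / 2 ^ 24 ≤ Real.log (1 + A / 512) := by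
      rw [div_le_iff₀ (by positivity)]
      apply cast_sub_le
      · exact mul_nonneg (Real.log_nonneg (by linarith)) (by positivity)
      · rw [div_le_iff₀ (by positivity)] at b5
        push_cast
        linarith
    have h1 : (A : ℝ) / 512 * ((j : ℝ) / Q - (A : ℝ) / 512 *
        ((j : ℝ) / Q * Real.cos (((th : ℝ) - 256) / 64 + ο))) ≤
        (A : ℝ) / 512 * ((j : ℝ) / Q) * (1 - (A : ℝ) / 512 * (((cto : ℝ) - 1 - 2 ^ 41) / 2 ^ 40)) := by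
      have h3 := mul_le_mul_of_nonneg_left hcs
        (show (0 : ℝ) ≤ (A : ℝ) / 512 * ((j : ℝ) / Q) * ((A : ℝ) / 512) by positivity)
      linarith
    have h2 : (A : ℝ) / 512 * ((j : ℝ) / Q) *
        (1 - (A : ℝ) / 512 * (((cto : ℝ) - 1 - 2 ^ 41) / 2 ^ 40)) ≤
        (1 + A / 512) * (((xK A - (xL A + 3) : ℕ) : ℝ) / 2 ^ 24) := by
      have e1 : (A : ℝ) / 512 * ((j : ℝ) / Q) *
          (1 - (A : ℝ) / 512 * (((cto : ℝ) - 1 - 2 ^ 41) / 2 ^ 40)) =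
          A * j * (562949953421312 + A * 2199023255553 - A * cto) / (262144 * Q * 2 ^ 40) := by
        field_simp
        ring
      have e2 : (1 + (A : ℝ) / 512) * (((xK A - (xL A + 3) : ℕ) : ℝ) / 2 ^ 24) =
          (512 + A) * ((xK A - (xL A + 3) : ℕ) : ℝ) * Q * 33554432 / (262144 * Q * 2 ^ 40) := by
        field_simp
        ring
      rw [e1, e2]
      exact div_le_div_of_nonneg_right d8 (by positivity)
    exact h1.trans (h2.trans (mul_le_mul_of_nonneg_left d8' (by linarith)))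
  have hpol := polar_axis hC (a := (A : ℝ) / 512) (x := (j : ℝ) / Q)
    (G := (G : ℝ) / 2 ^ 24 / (N + 1)) (θ := ((th : ℝ) - 256) / 64) (ο := ο) (t := t)
    hm ha0 ha1 hx0 hs t0 (t1.trans b1) hy x1 x2 x3 x4 x5 (by positivity) (by
      rw [div_le_iff₀ hG0, mul_comm]
      exact hG)
  have e5 : ((N : ℝ) + 1) * ((G : ℝ) / 2 ^ 24 / (N + 1)) / ((j : ℝ) / Q) =
      (G : ℝ) / 2 ^ 24 / ((j : ℝ) / Q) := by
    field_simp
  rw [e5] at hpol
  linarith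

end sound

/-- the further kind 4 of items -/
def xAx (Na Nb Q : ℕ) (G it r0 r1 g0 g1 R0 R1 : ℕ) : Bool :=
  Nat.beq (Nat.mod it 16) 4 &&
    itAx Na Nb Q (iJe it) (iTh it) (iOm it) (iOmB it) (iA it) g0 g1 r0 r1 R0 R1 G

theorem xAx_ok {Na Nb Q : ℕ} (hNa0 : 1 ≤ Na) (hQ : 0 < Q) : XP (xAx Na Nb Q) Na Nb Q := by
  intro G it r0 r1 g0 g1 R0 R1 h N hNa hNb z w R σ hC r γ hB hG
  obtain ⟨hm, hr, hγ, hγ2, hRr, h1, h2, h3, h4, h5, h6⟩ := hB
  have hg : g0 ≤ g1 := by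
    have : (g0 : ℝ) ≤ g1 := by linarith
    exact_mod_cast this
  unfold xAx at h
  rw [Bool.and_eq_true] at h
  exact itAx_sound hNa0 hNa hNb hQ hg hC hm h1 h2 h3 h4 h5 h6 hG h.2

end Pool.Agent.Lib.MP_af3a4a_an.P1.CHK.H28
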