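import Pool.Agent.Lib.MP_af3a4a_an.P1.CHK.H28.AxisN
import Pool.Agent.Lib.MP_af3a4a_an.P1.CHK.BOX.Chunk

/-!
# The axis item off the ray: geometry of `R - y` and the point `X₀` (council 2, helper28)
-/

set_option autoImplicit false

namespace Pool.Agent.Lib.MP_af3a4a_an.P1.CHK.H28

open MeasureTheory intervalIntegral ComplexConjugate
open Pool.Agent.Lib.MP_af3a4a_an.SV (uu av sq EE)
open Pool.Agent.Lib.MP_af3a4a_an.P1.H80
open Pool.Agent.Lib.MP_af3a4a_an.P1.CHK.H80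
open Pool.Agent.Lib.MP_af3a4a_an.P1.CHK.Arith
open Pool.Agent.Lib.MP_af3a4a_an.P1.CHK.BOX

theorem conj_cis (x : ℝ) : conj (Complex.exp ((x : ℂ) * Complex.I)) =
    Complex.exp (((-x : ℝ) : ℂ) * Complex.I) := by
  rw [← Complex.exp_conj, map_mul, Complex.conj_ofReal, Complex.conj_I]
  congr 1
  push_cast
  ring

/-- a number in a sector -/
theorem cone {s : ℂ} {p q : ℝ} (hpq : p ≤ q)
    (h1 : 0 ≤ (conj (Complex.exp ((p : ℂ) * Complex.I)) * s).re)
    (h2 : 0 ≤ (conj (Complex.exp ((p : ℂ) * Complex.I)) * s).im)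
    (h3 : (conj (Complex.exp ((q : ℂ) * Complex.I)) * s).im ≤ 0) :
    ∃ ο : ℝ, p ≤ ο ∧ ο ≤ q ∧ s = ((‖s‖ : ℝ) : ℂ) * Complex.exp ((ο : ℂ) * Complex.I) := by
  rcases eq_or_ne s 0 with hs | hs
  · exact ⟨p, le_rfl, hpq, by rw [hs]; simp⟩
  · have hs0 : 0 < ‖s‖ := norm_pos_iff.2 hs
    set v : ℂ := conj (Complex.exp ((p : ℂ) * Complex.I)) * s with hv
    have hvn : ‖v‖ = ‖s‖ := by
      rw [hv, norm_mul, Complex.norm_conj, Complex.norm_exp_ofReal_mul_I, one_mul]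
    have hφ0 : 0 ≤ Complex.arg v := Complex.arg_nonneg_iff.2 h2
    have hφ1 : Complex.arg v ≤ Real.pi / 2 := (abs_le.1 (Complex.abs_arg_le_pi_div_two_iff.2 h1)).2
    set φ : ℝ := Complex.arg v with hφ
    have hvp : v = ((‖s‖ : ℝ) : ℂ) * Complex.exp ((φ : ℂ) * Complex.I) := by
      rw [hφ, ← hvn]
      exact (Complex.norm_mul_exp_arg_mul_I v).symm
    have hse : s = Complex.exp ((p : ℂ) * Complex.I) * v := by
      rw [hv, ← mul_assoc, conj_cis, ← Complex.exp_add]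
      have : (p : ℂ) * Complex.I + ((-p : ℝ) : ℂ) * Complex.I = 0 := by push_cast; ring
      rw [this, Complex.exp_zero, one_mul]
    have hsp : s = ((‖s‖ : ℝ) : ℂ) * Complex.exp (((p + φ : ℝ) : ℂ) * Complex.I) := by
      conv_lhs => rw [hse, hvp]
      rw [mul_left_comm, ← Complex.exp_add]
      congr 2
      push_cast
      ring
    refine ⟨p + φ, by linarith, ?_, hsp⟩
    have h4 : (conj (Complex.exp ((q : ℂ) * Complex.I)) * s).im = ‖s‖ * Real.sin (p + φ - q) := by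
      conv_lhs => rw [hsp]
      rw [conj_cis, mul_left_comm, ← Complex.exp_add]
      have : ((-q : ℝ) : ℂ) * Complex.I + ((p + φ : ℝ) : ℂ) * Complex.I =
          ((p + φ - q : ℝ) : ℂ) * Complex.I := by push_cast; ring
      rw [this, Complex.im_ofReal_mul, Complex.exp_ofReal_mul_I_im]
    rw [h4] at h3
    by_contra hcon
    push Not at hcon
    have h5 : 0 < Real.sin (p + φ - q) := by
      apply Real.sin_pos_of_pos_of_lt_pi (by linarith)
      have := Real.pi_pos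
      linarith
    have := mul_pos hs0 h5
    linarith

/-- the cosine on an interval inside `[-π, π]` -/
theorem cos_ge_min {a b x c : ℝ} (ha : -Real.pi ≤ a) (hb : b ≤ Real.pi) (h1 : a ≤ x) (h2 : x ≤ b)
    (hca : c ≤ Real.cos a) (hcb : c ≤ Real.cos b) : c ≤ Real.cos x := by
  rcases le_total 0 x with h | h
  · exact hcb.trans (Real.cos_le_cos_of_nonneg_of_le_pi h hb h2)
  · refine hca.trans ?_
    rw [← Real.cos_neg a, ← Real.cos_neg x]
    exact Real.cos_le_cos_of_nonneg_of_le_pi (by linarith) (by linarith) (by linarith)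

/-! ### the point `X₀` -/

/-- `X₀` in units `1/1024` -/
def axX0 (A j Q kL lL : ℕ) : ℕ :=
  ev (axX A j Q kL lL) fun X => bif Nat.ble 1255 X then X else 1255

/-- the logarithmic condition -/
def axLog (Na A X : ℕ) : Bool :=
  Nat.ble (Nat.mul (Nat.mul 2 A) (Nat.succ Na)) (Nat.mul X Na) &&
    Nat.ble (ep (Nat.succ (Nat.mul (Nat.mul (Nat.mul A (Nat.succ Na))
      (Nat.sub (Nat.mul X X) 1048576)) 2097152 / Nat.mul Na X))) (Nat.mul X 1073741824)

theorem X0_ok {Na A j Q X N : ℕ} (c1 : 1 ≤ A) (c2 : A ≤ 255) (c3 : 1 ≤ j) (c4 : 1 ≤ Q)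
    (c5 : 1 ≤ Na) (hN : Na ≤ N) (hX : X = axX0 A j Q (xK A) (xL A)) (h : axLog Na A X = true) :
    1 ≤ (X : ℝ) / 1024 ∧ 1 + (A : ℝ) / 512 ≤ ((X : ℝ) / 1024) ^ 2 ∧
      (A : ℝ) / 512 * ((j : ℝ) / Q) + Real.log (1 + (A : ℝ) / 512) ≤ (A : ℝ) / 512 * ((X : ℝ) / 1024) ∧
      (A : ℝ) / 512 * (((N : ℝ) + 1) / N) * ((X : ℝ) / 1024 - 1 / ((X : ℝ) / 1024)) ≤
        Real.log ((X : ℝ) / 1024) ∧
      (A : ℝ) / 512 * (((N : ℝ) + 1) / N) ≤ (X : ℝ) / 1024 := by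
  unfold axLog at h
  simp only [Nat.mul_eq, Nat.sub_eq, Nat.succ_eq_add_one, Bool.and_eq_true, Nat.ble_eq] at h
  obtain ⟨c11, c12⟩ := h
  have hXY : axX A j Q (xK A) (xL A) ≤ X ∧ 1255 ≤ X := by
    rw [hX]
    unfold axX0
    rw [ev_eq]
    by_cases hb : 1255 ≤ axX A j Q (xK A) (xL A)
    · rw [Nat.ble_eq_true_of_le hb, cond_true]
      exact ⟨le_rfl, hb⟩
    · have hb' : Nat.ble 1255 (axX A j Q (xK A) (xL A)) = false := by
        rw [Bool.eq_false_iff, ne_eq, Nat.ble_eq]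
        exact hb
      rw [hb', cond_false]
      exact ⟨by omega, le_rfl⟩
  obtain ⟨hXY, c9⟩ := hXY
  have b6 := log_le c1 c2
  have hAr : (A : ℝ) ≤ 255 := by exact_mod_cast c2
  have hA1 : (1 : ℝ) ≤ A := by exact_mod_cast c1
  have hj1 : (1 : ℝ) ≤ j := by exact_mod_cast c3
  have hQ1 : (1 : ℝ) ≤ Q := by exact_mod_cast c4
  have hNa : (1 : ℝ) ≤ Na := by exact_mod_cast c5
  have hNr : (Na : ℝ) ≤ N := by exact_mod_cast hN
  have hX1 : (1255 : ℝ) ≤ X := by exact_mod_cast c9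
  have hA0 : (0 : ℝ) < A := by linarith
  have hj0 : (0 : ℝ) < j := by linarith
  have hQ0 : (0 : ℝ) < Q := by linarith
  have hNa0 : (0 : ℝ) < Na := by linarith
  have hN0 : (0 : ℝ) < N := by linarith
  have hX0 : (0 : ℝ) < X := by linarith
  have ha0 : 0 ≤ (A : ℝ) / 512 := by positivity
  have d11 : 2 * (A : ℝ) * (Na + 1) ≤ X * Na := by exact_mod_cast c11
  have hfr : ((N : ℝ) + 1) / N ≤ ((Na : ℝ) + 1) / Na := by
    rw [div_le_div_iff₀ hN0 hNa0]
    linarith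
  have hA' : (A : ℝ) / 512 * (((N : ℝ) + 1) / N) ≤ (A : ℝ) / 512 * (((Na : ℝ) + 1) / Na) :=
    mul_le_mul_of_nonneg_left hfr ha0
  refine ⟨?_, ?_, ?_, ?_, ?_⟩
  · rw [le_div_iff₀ (by norm_num)]
    linarith
  · rw [div_pow, le_div_iff₀ (by norm_num)]
    nlinarith
  · have h3 := Nat.lt_mul_div_succ (A * j * 32768 + (xK A + 3 - xL A) * Q)
      (show 0 < A * 32 * Q by positivity)
    have h4 : A * j * 32768 + (xK A + 3 - xL A) * Q ≤ A * 32 * Q * X := by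
      refine le_trans ?_ (Nat.mul_le_mul_left _ hXY)
      unfold axX
      simp only [Nat.add_eq, Nat.mul_eq, Nat.sub_eq, Nat.succ_eq_add_one]
      exact h3.le
    have h5 : (A : ℝ) * j * 32768 + ((xK A + 3 - xL A : ℕ) : ℝ) * Q ≤ A * 32 * Q * X := by
      exact_mod_cast h4
    have h6 : (xK A : ℝ) + 3 - xL A ≤ ((xK A + 3 - xL A : ℕ) : ℝ) := by
      have := sub_le_cast (xK A + 3) (xL A)
      push_cast at this
      exact this
    have h7 := mul_le_mul_of_nonneg_right h6 hQ0.le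
    refine (add_le_add le_rfl b6).trans ?_
    have e1 : (A : ℝ) / 512 * ((j : ℝ) / Q) + ((xK A : ℝ) + 3 - xL A) / 2 ^ 24 =
        (A * j * 32768 + ((xK A : ℝ) + 3 - xL A) * Q) / (Q * 2 ^ 24) := by
      field_simp
      ring
    have e2 : (A : ℝ) / 512 * ((X : ℝ) / 1024) = A * 32 * Q * X / (Q * 2 ^ 24) := by
      field_simp
      norm_num
    rw [e1, e2]
    exact div_le_div_of_nonneg_right (by linarith) (by positivity)
  · have hX20 : 1048576 ≤ X * X := le_trans (by norm_num) (Nat.mul_le_mul c9 c9)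
    have hX20' : (1048576 : ℝ) ≤ X * X := by exact_mod_cast hX20
    have hy0 : 0 ≤ (X : ℝ) / 1024 - 1 / (X / 1024) := by
      have e1 : (X : ℝ) / 1024 - 1 / (X / 1024) = (X * X - 1048576) / (1024 * X) := by
        field_simp
        norm_num
      rw [e1]
      exact div_nonneg (by linarith) (by positivity)
    refine (mul_le_mul_of_nonneg_right hA' hy0).trans ?_
    obtain ⟨p, hp⟩ : ∃ p, p = A * (Na + 1) * (X * X - 1048576) * 2097152 / (Na * X) + 1 := ⟨_, rfl⟩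
    rw [← hp] at c12
    have h3 : (A : ℝ) / 512 * (((Na : ℝ) + 1) / Na) * ((X : ℝ) / 1024 - 1 / (X / 1024)) ≤
        (p : ℝ) / 2 ^ 40 := by
      have h4 := real_le_div (A * (Na + 1) * (X * X - 1048576) * 2097152) (Na * X) (by positivity)
      rw [← hp] at h4
      rw [Nat.cast_mul, Nat.cast_mul, Nat.cast_mul, Nat.cast_sub hX20] at h4
      push_cast at h4
      rw [le_div_iff₀ (by positivity)]
      refine le_trans (le_of_eq ?_) h4
      field_simp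
      ring
    have h5 := ep_spec p
    have h6 : (ep p : ℝ) ≤ X * 1073741824 := by exact_mod_cast c12
    rw [Real.le_log_iff_exp_le (by positivity)]
    refine (Real.exp_le_exp.2 h3).trans (h5.trans ?_)
    rw [div_le_div_iff₀ (by positivity) (by norm_num)]
    refine (mul_le_mul_of_nonneg_right h6 (by norm_num)).trans (le_of_eq ?_)
    ring
  · refine hA'.trans ?_
    rw [div_mul_div_comm, div_le_div_iff₀ (by positivity) (by norm_num)]
    nlinarith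

/-! ### the geometry of `R - y` -/

/-- the check at one end: `R - y` in the sector, of length `≤ kL/2^24` -/
def axEnd (kL Q j cA ctA sA stA sB stB R : ℕ) : Bool :=
  ev (eA R j Q cA 2199023255552) fun X1 => ev (eA R j Q 2199023255552 ctA) fun X2 =>
  ev (eA R j Q sA 2199023255552) fun Y1 => ev (eA R j Q 2199023255552 stA) fun Y2 =>
  ev (Nat.add (ad X1 X2) 2) fun P => ev (Nat.add (ad Y1 Y2) 2) fun S =>
    Nat.ble (Nat.add X2 2) X1 && (Nat.ble (Nat.add Y1 2) Y2 &&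
      (Nat.ble (Nat.add (eA R j Q 2199023255552 stB) 2) (eA R j Q sB 2199023255552) &&
        Nat.ble (Nat.add (Nat.mul P P) (Nat.mul S S)) (Nat.mul kL kL)))

theorem axEnd_sound {kL Q j th oA oB R : ℕ} (hQ : 0 < Q) (hj : j ≤ 3 * Q) (hR : R ≤ 4096)
    (hA : ad oA 256 ≤ 256) (htA : ad (th + oA) 512 ≤ 256) (hB : ad oB 256 ≤ 256)
    (htB : ad (th + oB) 512 ≤ 256)
    (h : axEnd kL Q j (cz 256 oA) (cz 512 (th + oA)) (sz 256 oA) (sz 512 (th + oA)) (sz 256 oB)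
      (sz 512 (th + oB)) R = true) :
    0 ≤ (R : ℝ) / 1024 * Real.cos (((oA : ℝ) - 256) / 64) -
        (j : ℝ) / Q * Real.cos (((th : ℝ) - 256) / 64 + ((oA : ℝ) - 256) / 64) ∧
      (R : ℝ) / 1024 * Real.sin (((oA : ℝ) - 256) / 64) -
        (j : ℝ) / Q * Real.sin (((th : ℝ) - 256) / 64 + ((oA : ℝ) - 256) / 64) ≤ 0 ∧
      0 ≤ (R : ℝ) / 1024 * Real.sin (((oB : ℝ) - 256) / 64) -
        (j : ℝ) / Q * Real.sin (((th : ℝ) - 256) / 64 + ((oB : ℝ) - 256) / 64) ∧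
      ‖(((R : ℝ) / 1024 : ℝ) : ℂ) - (((j : ℝ) / Q : ℝ) : ℂ) *
          Complex.exp (((-(((th : ℝ) - 256) / 64) : ℝ) : ℂ) * Complex.I)‖ ≤ (kL : ℝ) / 2 ^ 24 := by
  unfold axEnd at h
  simp only [ev_eq, Nat.add_eq, Nat.mul_eq, Bool.and_eq_true, Nat.ble_eq] at h
  obtain ⟨c1, c2, c3, c4⟩ := h
  obtain ⟨k1, k2⟩ := coord ((R : ℝ) / 1024) ((j : ℝ) / Q) (((th : ℝ) - 256) / 64)
    (((oA : ℝ) - 256) / 64)
  have e0 : (((th + oA : ℕ) : ℝ) - (512 : ℕ)) / 64 =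
      ((th : ℝ) - 256) / 64 + ((oA : ℝ) - 256) / 64 := by push_cast; ring
  have e0' : (((th + oB : ℕ) : ℝ) - (512 : ℕ)) / 64 =
      ((th : ℝ) - 256) / 64 + ((oB : ℝ) - 256) / 64 := by push_cast; ring
  have s1 := cz_spec hA
  have s2 := sz_spec hA
  have s3 := cz_spec htA
  have s4 := sz_spec htA
  have s5 := sz_spec hB
  have s6 := sz_spec htB
  rw [e0] at s3 s4
  rw [e0'] at s6
  push_cast at s1 s2 s5
  have p1 := eA_spec (R := R) (j := j) hQ hj hR s1 s3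
  have p2 := eA_spec (R := R) (j := j) hQ hj hR s2 s4
  have p3 := eA_spec (R := R) (j := j) hQ hj hR s5 s6
  generalize hX1 : eA R j Q (cz 256 oA) 2199023255552 = X1 at *
  generalize hX2 : eA R j Q 2199023255552 (cz 512 (th + oA)) = X2 at *
  generalize hY1 : eA R j Q (sz 256 oA) 2199023255552 = Y1 at *
  generalize hY2 : eA R j Q 2199023255552 (sz 512 (th + oA)) = Y2 at *
  generalize hZ1 : eA R j Q (sz 256 oB) 2199023255552 = Z1 at *
  generalize hZ2 : eA R j Q 2199023255552 (sz 512 (th + oB)) = Z2 at *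
  have c1' : (X2 : ℝ) + 2 ≤ X1 := by exact_mod_cast c1
  have c2' : (Y1 : ℝ) + 2 ≤ Y2 := by exact_mod_cast c2
  have c3' : (Z2 : ℝ) + 2 ≤ Z1 := by exact_mod_cast c3
  have hp := abs_le.1 p1
  have hq := abs_le.1 p2
  have hz := abs_le.1 p3
  have f1 : (2 : ℝ) / 2 ^ 24 ≤ ((X1 : ℝ) - X2) / 2 ^ 24 :=
    div_le_div_of_nonneg_right (by linarith) (by norm_num)
  have f2 : ((Y1 : ℝ) - Y2) / 2 ^ 24 ≤ -(2 / 2 ^ 24) := by
    rw [← neg_div]
    exact div_le_div_of_nonneg_right (by linarith) (by norm_num)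
  have f3 : (2 : ℝ) / 2 ^ 24 ≤ ((Z1 : ℝ) - Z2) / 2 ^ 24 :=
    div_le_div_of_nonneg_right (by linarith) (by norm_num)
  refine ⟨by linarith [hp.1], by linarith [hq.2], by linarith [hz.1], ?_⟩
  set y := (((R : ℝ) / 1024 : ℝ) : ℂ) - (((j : ℝ) / Q : ℝ) : ℂ) *
          Complex.exp (((-(((th : ℝ) - 256) / 64) : ℝ) : ℂ) * Complex.I) with hy
  have hne : ‖conj (Complex.exp ((((((oA : ℝ) - 256) / 64 : ℝ)) : ℂ) * Complex.I)) * y‖ = ‖y‖ := by
    rw [norm_mul, Complex.norm_conj, Complex.norm_exp_ofReal_mul_I, one_mul]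
  have hsq : ‖y‖ ^ 2 = (R / 1024 * Real.cos ((↑oA - 256) / 64) -
      ↑j / ↑Q * Real.cos ((↑th - 256) / 64 + (↑oA - 256) / 64)) ^ 2 +
      (-(R / 1024 * Real.sin ((↑oA - 256) / 64) -
      ↑j / ↑Q * Real.sin ((↑th - 256) / 64 + (↑oA - 256) / 64))) ^ 2 := by
    rw [← hne, norm_sq_re_im, k1, k2]
  have c4' : (((ad X1 X2 : ℕ) : ℝ) + 2) * ((ad X1 X2 : ℕ) + 2) + (((ad Y1 Y2 : ℕ) : ℝ) + 2) *
      ((ad Y1 Y2 : ℕ) + 2) ≤ kL * kL := by exact_mod_cast c4
  rw [ad_cast, ad_cast] at c4'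
  have habs : ∀ x y z : ℝ, |x - y / 2 ^ 24| ≤ 2 / 2 ^ 24 → |x| ≤ (|y| + 2) / 2 ^ 24 := by
    intro x y z h
    have h1 : |x| ≤ |x - y / 2 ^ 24| + |y / 2 ^ 24| := by
      have := abs_add_le (x - y / 2 ^ 24) (y / 2 ^ 24)
      rwa [sub_add_cancel] at this
    rw [abs_div, abs_of_pos (show (0 : ℝ) < 2 ^ 24 by positivity)] at h1
    rw [add_div]
    linarith
  have g1 := pow_le_pow_left₀ (abs_nonneg _) (habs _ _ 0 p1) 2
  have g2 := pow_le_pow_left₀ (abs_nonneg _) (habs _ _ 0 p2) 2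
  rw [sq_abs] at g1 g2
  apply le_of_sq_le_sq _ (div_nonneg (Nat.cast_nonneg _) (by norm_num))
  rw [hsq, neg_sq]
  refine (add_le_add g1 g2).trans ?_
  rw [div_pow, div_pow, div_pow, ← add_div]
  apply div_le_div_of_nonneg_right _ (by positivity)
  nlinarith

/-- the geometry check -/
def axGeo (kL Q j th oA oB R0 R1 : ℕ) : Bool :=
  bif Nat.beq th 256 && (Nat.beq oA 256 && Nat.beq oB 256) then
    Nat.ble (Nat.mul 1024 j) (Nat.mul Q R0) &&
      Nat.ble (Nat.mul (Nat.mul R1 Q) 16384) (Nat.add (Nat.mul j 16777216) (Nat.mul kL Q))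
  else
    (fun cA ctA sA stA sB stB =>
      axEnd kL Q j cA ctA sA stA sB stB R0 && axEnd kL Q j cA ctA sA stA sB stB R1)
    (cz 256 oA) (cz 512 (Nat.add th oA)) (sz 256 oA) (sz 512 (Nat.add th oA)) (sz 256 oB)
      (sz 512 (Nat.add th oB))

theorem axGeo_sound {kL Q j th oA oB R0 R1 : ℕ} (hQ : 0 < Q) (hj : j ≤ 3 * Q)
    (hR0 : R0 ≤ 4096) (hR1 : R1 ≤ 4096) (hAB : oA ≤ oB)
    (hA : ad oA 256 ≤ 256) (htA : ad (th + oA) 512 ≤ 256) (hB : ad oB 256 ≤ 256)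
    (htB : ad (th + oB) 512 ≤ 256) (h : axGeo kL Q j th oA oB R0 R1 = true) {R : ℝ}
    (h0 : (R0 : ℝ) / 1024 ≤ R) (h1 : R ≤ (R1 : ℝ) / 1024) :
    ∃ ο t : ℝ, ((oA : ℝ) - 256) / 64 ≤ ο ∧ ο ≤ ((oB : ℝ) - 256) / 64 ∧
      (R : ℂ) - (((j : ℝ) / Q : ℝ) : ℂ) *
        Complex.exp (((-(((th : ℝ) - 256) / 64) : ℝ) : ℂ) * Complex.I) =
          (t : ℂ) * Complex.exp ((ο : ℂ) * Complex.I) ∧ 0 ≤ t ∧ t ≤ (kL : ℝ) / 2 ^ 24 := by
  have hQr : (0 : ℝ) < Q := by exact_mod_cast hQ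
  unfold axGeo at h
  cases hb : Nat.beq th 256 && (Nat.beq oA 256 && Nat.beq oB 256) with
  | true =>
    rw [hb, cond_true] at h
    simp only [Bool.and_eq_true, Nat.beq_eq, Nat.ble_eq, Nat.mul_eq, Nat.add_eq] at hb h
    obtain ⟨rfl, rfl, rfl⟩ := hb
    obtain ⟨c6, c7⟩ := h
    have d6 : 1024 * (j : ℝ) ≤ Q * R0 := by exact_mod_cast c6
    have d7 : (R1 : ℝ) * Q * 16384 ≤ j * 16777216 + kL * Q := by exact_mod_cast c7
    have e1 : (j : ℝ) / Q ≤ R := by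
      refine le_trans ?_ h0
      rw [div_le_div_iff₀ hQr (by norm_num)]
      linarith
    have e2 : R ≤ (j : ℝ) / Q + kL / 2 ^ 24 := by
      refine h1.trans ?_
      rw [div_add_div _ _ hQr.ne' (by norm_num), div_le_div_iff₀ (by norm_num) (by positivity)]
      nlinarith
    refine ⟨0, R - (j : ℝ) / Q, by norm_num, by norm_num, ?_, by linarith, by linarith⟩
    norm_num
  | false =>
    rw [hb, cond_false] at h
    simp only [Bool.and_eq_true, Nat.add_eq] at h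
    obtain ⟨ha1, ha2, ha3, ha4⟩ := axEnd_sound hQ hj hR0 hA htA hB htB h.1
    obtain ⟨hb1, hb2, hb3, hb4⟩ := axEnd_sound hQ hj hR1 hA htA hB htB h.2
    obtain ⟨k1, k2⟩ := coord R ((j : ℝ) / Q) (((th : ℝ) - 256) / 64) (((oA : ℝ) - 256) / 64)
    obtain ⟨k3, k4⟩ := coord R ((j : ℝ) / Q) (((th : ℝ) - 256) / 64) (((oB : ℝ) - 256) / 64)
    have aff : ∀ α β : ℝ, 0 ≤ (R0 : ℝ) / 1024 * α - β → 0 ≤ (R1 : ℝ) / 1024 * α - β →
        0 ≤ R * α - β := by
      intro α β g0 g1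
      rcases le_total 0 α with hα | hα
      · have := mul_le_mul_of_nonneg_right h0 hα
        linarith
      · have := mul_le_mul_of_nonpos_right h1 hα
        linarith
    have hAB' : (oA : ℝ) ≤ oB := by exact_mod_cast hAB
    have w1 := aff _ _ ha1 hb1
    have w2 := aff (-Real.sin (((oA : ℝ) - 256) / 64))
      (-((j : ℝ) / Q * Real.sin (((th : ℝ) - 256) / 64 + ((oA : ℝ) - 256) / 64)))
      (by linarith) (by linarith)
    have w3 := aff _ _ ha3 hb3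
    obtain ⟨ο, q1, q2, q3⟩ := cone (s := (R : ℂ) - (((j : ℝ) / Q : ℝ) : ℂ) *
        Complex.exp (((-(((th : ℝ) - 256) / 64) : ℝ) : ℂ) * Complex.I))
        (p := ((oA : ℝ) - 256) / 64) (q := ((oB : ℝ) - 256) / 64)
        (div_le_div_of_nonneg_right (by linarith) (by norm_num))
        (by rw [k1]; exact w1) (by rw [k2]; linarith) (by rw [k4]; linarith)
    exact ⟨ο, _, q1, q2, q3, norm_nonneg _, norm_segment ha4 hb4 h0 h1⟩

end Pool.Agent.Lib.MP_af3a4a_an.P1.CHK.H28
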