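import Pool.Agent.Lib.MP_af3a4a_an.P1.CHK.H28.AxGeo

/-!
# The axis item off the ray: the final inequality and the item (council 2, helper28)

Adapted from `phiN` of helper11.
-/

set_option autoImplicit false

namespace Pool.Agent.Lib.MP_af3a4a_an.P1.CHK.H28

open MeasureTheory intervalIntegral ComplexConjugate
open Pool.Agent.Lib.MP_af3a4a_an.SV (uu av sq EE)
open Pool.Agent.Lib.MP_af3a4a_an.P1.H80
open Pool.Agent.Lib.MP_af3a4a_an.P1.CHK.H80
open Pool.Agent.Lib.MP_af3a4a_an.P1.CHK.Arith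
open Pool.Agent.Lib.MP_af3a4a_an.P1.CHK.BOX

/-- the final test; `ct co cto`: lower bounds of the cosines, `i0 i1` the range of the angle of
`m e` -/
def phiX (Na Nb A Q j ct co cto i0 i1 r0 r1 kL kU lU G : ℕ) : Bool :=
  ev (nr 256 i0 i1) fun n => ev (Nat.succ (tc n)) fun cn =>
  ev (Nat.mul A (bif Nat.ble 2199023255552 cn then r1 else r0)) fun Ar =>
  ev (Nat.succ (Nat.div (Nat.mul Ar cn) 2097152)) fun AP =>
  ev (Nat.mul Ar 1048576) fun AN =>
  ev (Nat.mul A j) fun Aj =>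
  ev (Nat.add (Nat.mul lU 65536) (Nat.add (Nat.succ (Nat.div (Nat.mul Aj 4294967296) Q)) AP)) fun P1 =>
  ev (Nat.add (Nat.div (Nat.mul Aj (Nat.sub cto 1)) (Nat.mul 512 Q)) AN) fun N1 =>
  ev (Nat.add (Nat.add 1099511627776 AP)
    (Nat.add (Nat.succ (Nat.div (Nat.mul j 2199023255552) Q))
      (Nat.succ (Nat.div (Nat.mul kU (Nat.sub 2199023255553 co)) 16777216)))) fun P0 =>
  ev (Nat.add AN (Nat.add (Nat.div (Nat.mul j (Nat.sub ct 1)) Q)
    (Nat.div (Nat.mul kL (Nat.sub co 2199023255553)) 16777216))) fun N0 =>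
  ev (bif Nat.ble P1 N1 then Na else Nb) fun M =>
  Nat.ble (Nat.add (ad i0 256) n) 402 && (Nat.ble (Nat.add (ad i1 256) n) 402 &&
        Nat.ble (Nat.mul (es (Nat.add P0 (Nat.mul M P1)) (Nat.add N0 (Nat.mul M N1))) j)
          (Nat.mul (Nat.mul G Q) 65536))

theorem phiX_sound {Na Nb A Q j ct co cto i0 i1 r0 r1 kL kU lU G N : ℕ} {r x κ Λ cθ cω cs : ℝ}
    (hNa : Na ≤ N) (hNb : N ≤ Nb) (hQ : 0 < Q) (hj : 0 < j) (hi : i0 ≤ i1)
    (hr0 : (r0 : ℝ) / 4096 ≤ r) (hr1 : r ≤ (r1 : ℝ) / 4096)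
    (hx0 : ((i0 : ℝ) - 256) / 64 ≤ x) (hx1 : x ≤ ((i1 : ℝ) - 256) / 64)
    (hct1 : 1 ≤ ct) (hcto1 : 1 ≤ cto)
    (hct : (ct : ℝ) - 1 - 2 ^ 41 ≤ 2 ^ 40 * cθ) (hco : (co : ℝ) - 1 - 2 ^ 41 ≤ 2 ^ 40 * cω)
    (hcto : (cto : ℝ) - 1 - 2 ^ 41 ≤ 2 ^ 40 * cs)
    (hkL : (kL : ℝ) / 2 ^ 24 ≤ κ) (hkU : κ ≤ (kU : ℝ) / 2 ^ 24) (hlU : Λ ≤ (lU : ℝ) / 2 ^ 24)
    (h : phiX Na Nb A Q j ct co cto i0 i1 r0 r1 kL kU lU G = true) :
    0 < G ∧ (1 : ℝ) + N * Λ
      - (A : ℝ) / 512 * (N * ((j : ℝ) / Q) * cs - ((N : ℝ) + 1) * (r * Real.cos x))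
      - (j : ℝ) / Q * cθ - κ * cω ≤
      Real.log ((G : ℝ) / 2 ^ 24 / ((j : ℝ) / Q)) := by
  unfold phiX at h
  simp only [ev_eq, Nat.add_eq, Nat.mul_eq, Nat.sub_eq, Nat.succ_eq_add_one, ndiv_eq,
    Bool.and_eq_true, Nat.ble_eq] at h
  obtain ⟨c1, c2, c6⟩ := h
  set n : ℕ := nr 256 i0 i1 with hn
  set cn : ℕ := tc n + 1 with hcn
  set rr : ℕ := (bif Nat.ble 2199023255552 cn then r1 else r0) with hrr
  have hQr : (0 : ℝ) < Q := by exact_mod_cast hQ
  have hjr : (0 : ℝ) < j := by exact_mod_cast hj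
  have hn256 : n ≤ 256 := by
    have h1 : n ≤ ad i0 256 ∨ n ≤ ad i1 256 := by
      rw [hn]; unfold nr ad; simp only [Nat.add_eq, Nat.sub_eq]; omega
    omega
  have scn := (trig_tab hn256).1
  have hcos : Real.cos x ≤ ((cn : ℝ) - 2 ^ 41) / 2 ^ 40 := by
    have h1 := nr_spec (o := 256) (i := i0) (j := i1) hi c1 c2 (x := x) (by push_cast; exact hx0)
      (by push_cast; exact hx1)
    refine h1.trans ?_
    rw [← hn, le_div_iff₀ (by norm_num), hcn]
    push_cast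
    have := (abs_le.1 scn).1
    linarith
  have hrpos : 0 ≤ r := le_trans (by positivity) hr0
  have hρ : r * Real.cos x ≤ (rr : ℝ) / 4096 * (((cn : ℝ) - 2 ^ 41) / 2 ^ 40) := by
    refine (mul_le_mul_of_nonneg_left hcos hrpos).trans ?_
    by_cases hb : 2199023255552 ≤ cn
    · have e : rr = r1 := by rw [hrr, Nat.ble_eq_true_of_le hb, cond_true]
      rw [e]
      apply mul_le_mul_of_nonneg_right hr1
      apply div_nonneg _ (by norm_num)
      have : ((2199023255552 : ℕ) : ℝ) ≤ cn := by exact_mod_cast hb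
      push_cast at this
      norm_num
      linarith
    · have hb' : Nat.ble 2199023255552 cn = false := by
        rw [Bool.eq_false_iff, ne_eq, Nat.ble_eq]
        exact hb
      have e : rr = r0 := by rw [hrr, hb', cond_false]
      rw [e]
      apply mul_le_mul_of_nonpos_right hr0
      apply div_nonpos_of_nonpos_of_nonneg _ (by norm_num)
      have : (cn : ℝ) < ((2199023255552 : ℕ) : ℝ) := by exact_mod_cast (not_le.1 hb)
      push_cast at this
      norm_num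
      linarith
  set AP : ℕ := A * rr * cn / 2097152 + 1 with hAP
  set AN : ℕ := A * rr * 1048576 with hAN
  set BP : ℕ := A * j * 4294967296 / Q + 1 with hBP
  set BN : ℕ := A * j * (cto - 1) / (512 * Q) with hBN
  set T1 : ℕ := j * 2199023255552 / Q + 1 with hT1
  set T0 : ℕ := j * (ct - 1) / Q with hT0
  set U1 : ℕ := kU * (2199023255553 - co) / 16777216 + 1 with hU1
  set U0 : ℕ := kL * (co - 2199023255553) / 16777216 with hU0
  have hA0 : (0 : ℝ) ≤ A := Nat.cast_nonneg _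
  have bA : (A : ℝ) / 512 * (r * Real.cos x) * 2 ^ 40 ≤ AP - AN := by
    have h1 := lt_div' (A * rr * cn) 2097152 (by norm_num)
    have h2 := mul_le_mul_of_nonneg_left hρ (show (0 : ℝ) ≤ A / 512 by positivity)
    have h3 : (AP : ℝ) - AN = ((A * rr * cn / 2097152 : ℕ) : ℝ) + 1 - A * rr * 1048576 := by
      rw [hAP, hAN]; push_cast; ring
    rw [h3]
    push_cast at h1
    have h4 : (A : ℝ) / 512 * ((rr : ℝ) / 4096 * (((cn : ℝ) - 2 ^ 41) / 2 ^ 40)) * 2 ^ 40 =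
      (A : ℝ) * rr * cn / 2097152 - A * rr * 1048576 := by ring
    have h5 := mul_le_mul_of_nonneg_right h2 (show (0 : ℝ) ≤ 2 ^ 40 by norm_num)
    linarith
  have bB : -((A : ℝ) / 512 * ((j : ℝ) / Q) * cs) * 2 ^ 40 ≤ BP - BN := by
    have h1 := lt_div' (A * j * 4294967296) Q hQ
    have h2 := div_le' (A * j * (cto - 1)) (512 * Q)
    have h3 : ((cto - 1 : ℕ) : ℝ) = cto - 1 := by rw [Nat.cast_sub hcto1, Nat.cast_one]
    have h4 : (BP : ℝ) - BN = ((A * j * 4294967296 / Q : ℕ) : ℝ) + 1 -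
        ((A * j * (cto - 1) / (512 * Q) : ℕ) : ℝ) := by rw [hBP, hBN]; push_cast; ring
    rw [h4]
    push_cast [h3] at h1 h2
    have h7 := mul_le_mul_of_nonneg_left hcto (show (0 : ℝ) ≤ A / 512 * (j / Q) by positivity)
    have h8 : (A : ℝ) / 512 * (j / Q) * ((cto : ℝ) - 1 - 2 ^ 41) =
        (A : ℝ) * j * (cto - 1) / (512 * Q) - A * j * 4294967296 / Q := by
      field_simp
      ring
    linarith
  have bT : -((j : ℝ) / Q * cθ) * 2 ^ 40 ≤ T1 - T0 := by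
    have h1 := lt_div' (j * 2199023255552) Q hQ
    have h2 := div_le' (j * (ct - 1)) Q
    have h3 : ((ct - 1 : ℕ) : ℝ) = ct - 1 := by rw [Nat.cast_sub hct1, Nat.cast_one]
    have h4 : (T1 : ℝ) - T0 = ((j * 2199023255552 / Q : ℕ) : ℝ) + 1 -
        ((j * (ct - 1) / Q : ℕ) : ℝ) := by rw [hT1, hT0]; push_cast; ring
    rw [h4]
    push_cast [h3] at h1 h2
    have h7 := mul_le_mul_of_nonneg_left hct (show (0 : ℝ) ≤ (j : ℝ) / Q by positivity)
    have h8 : (j : ℝ) / Q * ((ct : ℝ) - 1 - 2 ^ 41) =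
        (j : ℝ) * (ct - 1) / Q - j * 2199023255552 / Q := by
      field_simp
      ring
    linarith
  have bU : -(κ * cω) * 2 ^ 40 ≤ U1 - U0 := by
    have h1 := lt_div' (kU * (2199023255553 - co)) 16777216 (by norm_num)
    have h2 := div_le' (kL * (co - 2199023255553)) 16777216
    have h4 : (U1 : ℝ) - U0 = ((kU * (2199023255553 - co) / 16777216 : ℕ) : ℝ) + 1 -
        ((kL * (co - 2199023255553) / 16777216 : ℕ) : ℝ) := by rw [hU1, hU0]; push_cast; ring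
    rw [h4]
    have hκ : 0 ≤ κ := le_trans (div_nonneg (Nat.cast_nonneg _) (by norm_num)) hkL
    rcases le_total 2199023255553 co with hc | hc
    · have e1 : 2199023255553 - co = 0 := by omega
      rw [e1, mul_zero] at h1 ⊢
      push_cast [Nat.cast_sub hc] at h1 h2 ⊢
      have h6 : (co : ℝ) - 2199023255553 ≤ 2 ^ 40 * cω := by
        norm_num at hco ⊢; linarith
      have h7 : (0 : ℝ) ≤ (co : ℝ) - 2199023255553 := by
        have : ((2199023255553 : ℕ) : ℝ) ≤ co := by exact_mod_cast hc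
        push_cast at this; linarith
      have h8 : (kL : ℝ) / 2 ^ 24 * ((co : ℝ) - 2199023255553) ≤ κ * (2 ^ 40 * cω) :=
        mul_le_mul hkL h6 h7 hκ
      have h9 : (kL : ℝ) / 2 ^ 24 * ((co : ℝ) - 2199023255553) =
        (kL : ℝ) * (co - 2199023255553) / 16777216 := by ring
      norm_num at h1 ⊢
      linarith
    · have e1 : co - 2199023255553 = 0 := by omega
      rw [e1, mul_zero] at h2 ⊢
      push_cast [Nat.cast_sub hc] at h1 h2 ⊢
      have h6 : -(2 ^ 40 * cω) ≤ 2199023255553 - (co : ℝ) := by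
        norm_num at hco ⊢; linarith
      have h7 : (0 : ℝ) ≤ 2199023255553 - (co : ℝ) := by
        have : (co : ℝ) ≤ ((2199023255553 : ℕ) : ℝ) := by exact_mod_cast hc
        push_cast at this; linarith
      have h8 : κ * -(2 ^ 40 * cω) ≤ (kU : ℝ) / 2 ^ 24 * (2199023255553 - co) :=
        (mul_le_mul_of_nonneg_left h6 hκ).trans (mul_le_mul_of_nonneg_right hkU h7)
      have h9 : (kU : ℝ) / 2 ^ 24 * (2199023255553 - co) =
        (kU : ℝ) * (2199023255553 - co) / 16777216 := by ring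
      norm_num at h2 ⊢
      linarith
  set P1 : ℕ := lU * 65536 + (BP + AP) with hP1
  set N1 : ℕ := BN + AN with hN1
  set P0 : ℕ := 1099511627776 + AP + (T1 + U1) with hP0
  set N0 : ℕ := AN + (T0 + U0) with hN0
  set M : ℕ := (bif Nat.ble P1 N1 then Na else Nb) with hM
  have hNar : (Na : ℝ) ≤ N := by exact_mod_cast hNa
  have hNbr : (N : ℝ) ≤ Nb := by exact_mod_cast hNb
  have hlin : (N : ℝ) * ((P1 : ℝ) - N1) ≤ M * ((P1 : ℝ) - N1) := by
    by_cases hb : P1 ≤ N1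
    · have e : M = Na := by rw [hM, Nat.ble_eq_true_of_le hb, cond_true]
      have h1 : (P1 : ℝ) ≤ N1 := by exact_mod_cast hb
      rw [e]
      exact mul_le_mul_of_nonpos_right hNar (by linarith)
    · have hb' : Nat.ble P1 N1 = false := by
        rw [Bool.eq_false_iff, ne_eq, Nat.ble_eq]
        exact hb
      have e : M = Nb := by rw [hM, hb', cond_false]
      have h1 : (N1 : ℝ) ≤ P1 := by exact_mod_cast (not_le.1 hb).le
      rw [e]
      exact mul_le_mul_of_nonneg_right hNbr (by linarith)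
  have hN0r : (0 : ℝ) ≤ N := Nat.cast_nonneg _
  obtain ⟨E, hE⟩ : ∃ E : ℝ, E = (1 : ℝ) + N * Λ
      - (A : ℝ) / 512 * (N * ((j : ℝ) / Q) * cs - ((N : ℝ) + 1) * (r * Real.cos x))
      - (j : ℝ) / Q * cθ - κ * cω := ⟨_, rfl⟩
  rw [← hE]
  have hEb : E * 2 ^ 40 ≤ (((P0 + M * P1 : ℕ) : ℝ) - ((N0 + M * N1 : ℕ) : ℝ)) := by
    have h1 := mul_le_mul_of_nonneg_left bA (show (0 : ℝ) ≤ (N : ℝ) + 1 by linarith)
    have h2 := mul_le_mul_of_nonneg_left bB hN0r
    have h3 : N * Λ * 2 ^ 40 ≤ N * ((lU : ℝ) * 65536) := by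
      have : Λ * 2 ^ 40 ≤ (lU : ℝ) * 65536 := by
        norm_num at hlU ⊢
        linarith
      have := mul_le_mul_of_nonneg_left this hN0r
      linarith
    have e1 : (((P0 + M * P1 : ℕ) : ℝ) - ((N0 + M * N1 : ℕ) : ℝ)) =
        (1099511627776 + AP + (T1 + U1)) - (AN + (T0 + U0)) + M * ((P1 : ℝ) - N1) := by
      rw [hP0, hN0]; push_cast; ring
    have e2 : (N : ℝ) * ((P1 : ℝ) - N1) = N * ((lU : ℝ) * 65536) + N * ((BP : ℝ) - BN) +
        N * ((AP : ℝ) - AN) := by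
      rw [hP1, hN1]; push_cast; ring
    rw [e1]
    have e3 : E * 2 ^ 40 = 1099511627776 + N * Λ * 2 ^ 40 +
        N * (-((A : ℝ) / 512 * ((j : ℝ) / Q) * cs) * 2 ^ 40) +
        ((N : ℝ) + 1) * ((A : ℝ) / 512 * (r * Real.cos x) * 2 ^ 40) +
        (-((j : ℝ) / Q * cθ) * 2 ^ 40) + (-(κ * cω) * 2 ^ 40) := by
      rw [hE]; ring
    rw [e3]
    linarith
  have hes := es_spec (P0 + M * P1) (N0 + M * N1)
  have hexp : Real.exp E ≤ (es (P0 + M * P1) (N0 + M * N1) : ℝ) / 2 ^ 40 := by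
    refine le_trans (Real.exp_le_exp.2 ?_) hes
    rw [← sub_div, le_div_iff₀ (by norm_num)]
    exact hEb
  have c6' : ((es (P0 + M * P1) (N0 + M * N1) : ℕ) : ℝ) * j ≤ G * Q * 65536 := by exact_mod_cast c6
  have hfin : Real.exp E ≤ (G : ℝ) / 2 ^ 24 / ((j : ℝ) / Q) := by
    refine hexp.trans ?_
    rw [div_div_eq_mul_div, div_mul_eq_mul_div, div_div,
      div_le_div_iff₀ (by norm_num) (mul_pos (by norm_num) hjr)]
    have : (es (P0 + M * P1) (N0 + M * N1) : ℝ) * (2 ^ 24 * j) =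
      2 ^ 24 * ((es (P0 + M * P1) (N0 + M * N1) : ℝ) * j) := by ring
    rw [this]
    have := mul_le_mul_of_nonneg_left c6' (show (0 : ℝ) ≤ 2 ^ 24 by norm_num)
    refine this.trans (le_of_eq ?_)
    ring
  have hGpos : 0 < (G : ℝ) / 2 ^ 24 / ((j : ℝ) / Q) := lt_of_lt_of_le (Real.exp_pos _) hfin
  constructor
  · rcases Nat.eq_zero_or_pos G with h0 | h0
    · rw [h0] at hGpos
      simp at hGpos
    · exact h0
  · rw [Real.le_log_iff_exp_le hGpos]
    exact hfin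

end Pool.Agent.Lib.MP_af3a4a_an.P1.CHK.H28
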