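import Pool.Agent.Lib.MP_af3a4a_an.P1.H80.OffRay
import Pool.Agent.Lib.MP_af3a4a_an.P1.CHK.H80.Seg
import Pool.Agent.Lib.MP_af3a4a_an.P1.H74.EFree

/-!
# The certificate on the ray with a large `a` (council 2, helper28)

`y = x > 0` real, `x ≤ R ≤ x + kap a`, `e = 1`, no loss; `a (N+1)/N` up to `.48`
(`efree_axis` of helper74).
-/

set_option autoImplicit false

namespace Pool.Agent.Lib.MP_af3a4a_an.P1.CHK.H28

open Finset MeasureTheory intervalIntegral ComplexConjugate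
open Pool.Agent.Lib.MP_af3a4a_an.SV (uu av sq EE)
open Pool.Agent.Lib.MP_af3a4a_an.P1.H80

section

variable {N : ℕ} {z w : Fin N → ℂ} {R : ℝ} {σ : Fin N → ℂ}

/-- **the certificate on the ray**: `y = x`, `0 ≤ R - x ≤ kap a`, `e = 1`, no loss. -/
theorem cert_axis (hC : Cfg2 N z w R σ) {a x X₀ G : ℝ} (a0 : 0 ≤ a) (a1 : a < 1)
    (hx0 : 0 < x) (hxR : x ≤ R) (hRx : R ≤ x + kap a)
    (hy : a * x * (1 - a) ≤ (1 + a) * Real.log (1 + a))
    (hX1 : 1 ≤ X₀) (hX2 : 1 + a ≤ X₀ ^ 2) (hX3 : a * x + Real.log (1 + a) ≤ a * X₀)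
    (hX : a * (((N : ℝ) + 1) / N) * (X₀ - 1 / X₀) ≤ Real.log X₀)
    (hα : a * (((N : ℝ) + 1) / N) ≤ X₀) (hG : 0 < G)
    (hf : G ≤ ‖∫ s in (0 : ℝ)..x, qq (uu w) s‖) :
    N * (1 + Real.log (1 - a ^ 2) / 2) + a * (N * x - ((N : ℝ) + 1) * (av (uu w)).re)
      + x + kap a + Real.log (((N : ℝ) + 1) * G / x) < N + 1 := by
  have hN : 1 ≤ N := by linarith [hC.hN]
  have hnx : ‖(x : ℂ)‖ = x := by rw [Complex.norm_real, Real.norm_of_nonneg hx0.le]
  have h := H74.efree_axis hN hC.cfg (a := a) (t := R - x) (c₀ := 0) (X₀ := X₀) (e := 1)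
    (y := (x : ℂ)) norm_one a0 a1 (by push_cast; ring) (by linarith) (by linarith) one_pos
    (by rw [hnx, map_one, one_mul, Complex.ofReal_re]; linarith)
    hX1 hX2 (by rw [hnx]; exact hX3) (by rw [sub_zero, one_mul]; exact hX)
    (by rw [sub_zero, one_mul]; exact hα)
  rw [Real.rpow_zero, mul_one] at h
  have h7 := Cfg2.fI_eq w hx0.le
  have h8 : ‖fI w (x : ℂ)‖ = ‖∫ s in (0 : ℝ)..x, qq (uu w) s‖ / x := by
    rw [eq_div_iff hx0.ne', mul_comm, h7]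
  have h9 : ((N : ℝ) + 1) * G / x ≤ ((N : ℝ) + 1) * ‖fI w (x : ℂ)‖ := by
    rw [h8, mul_div_assoc]
    exact mul_le_mul_of_nonneg_left (div_le_div_of_nonneg_right hf hx0.le) (by positivity)
  have hpos : 0 < ((N : ℝ) + 1) * G / x := by positivity
  have h10 := (Real.log_lt_iff_lt_exp hpos).2 (h9.trans_lt h)
  simp only [map_one, one_mul, Complex.ofReal_re, map_neg, neg_mul, Complex.neg_re,
    Complex.one_re] at h10
  linarith

/-- **the certificate off the ray**: `y = x ω`, `R - y = t e`, `0 ≤ t ≤ kap a`, no loss. -/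
theorem cert_axis_off (hC : Cfg2 N z w R σ) {a x X₀ G t : ℝ} {e ω : ℂ} (he : ‖e‖ = 1)
    (hω : ‖ω‖ = 1) (a0 : 0 ≤ a) (a1 : a < 1) (hx0 : 0 < x)
    (hs : (R : ℂ) - (x : ℂ) * ω = (t : ℂ) * e) (ht0 : 0 ≤ t) (ht : t ≤ kap a)
    (hy : a * (x - a * (x * (conj e * ω).re)) ≤ (1 + a) * Real.log (1 + a))
    (hX1 : 1 ≤ X₀) (hX2 : 1 + a ≤ X₀ ^ 2) (hX3 : a * x + Real.log (1 + a) ≤ a * X₀)
    (hX : a * (((N : ℝ) + 1) / N) * (X₀ - 1 / X₀) ≤ Real.log X₀)
    (hα : a * (((N : ℝ) + 1) / N) ≤ X₀) (hG : 0 < G)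
    (hf : G ≤ ‖∫ s in (0 : ℝ)..x, qq (ru w ω) s‖) :
    N * (1 + Real.log (1 - a ^ 2) / 2)
      + a * (N * x * (conj e * ω).re - ((N : ℝ) + 1) * (conj e * conj (av (uu w))).re)
      + x * ω.re + kap a * e.re + Real.log (((N : ℝ) + 1) * G / x) < N + 1 := by
  have hN : 1 ≤ N := by linarith [hC.hN]
  have hnx : ‖(x : ℂ) * ω‖ = x := by
    rw [norm_mul, hω, mul_one, Complex.norm_real, Real.norm_of_nonneg hx0.le]
  have hre : (conj e * ((x : ℂ) * ω)).re = x * (conj e * ω).re := by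
    rw [mul_left_comm, Complex.re_ofReal_mul]
  have h := H74.efree_axis hN hC.cfg (a := a) (t := t) (c₀ := 0) (X₀ := X₀) (e := e)
    (y := (x : ℂ) * ω) he a0 a1 hs ht0 ht one_pos
    (by rw [hnx, hre]; exact hy)
    hX1 hX2 (by rw [hnx]; exact hX3) (by rw [sub_zero, one_mul]; exact hX)
    (by rw [sub_zero, one_mul]; exact hα)
  rw [Real.rpow_zero, mul_one, hre] at h
  have h5 := H80.fI_eq w ω x
  have h6 := congrArg norm h5
  rw [norm_mul, Complex.norm_real, Real.norm_of_nonneg hx0.le] at h6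
  have h8 : ‖fI w ((x : ℂ) * ω)‖ = ‖∫ s in (0 : ℝ)..x, qq (ru w ω) s‖ / x := by
    rw [eq_div_iff hx0.ne', mul_comm, h6]
    rfl
  have h9 : ((N : ℝ) + 1) * G / x ≤ ((N : ℝ) + 1) * ‖fI w ((x : ℂ) * ω)‖ := by
    rw [h8, mul_div_assoc]
    exact mul_le_mul_of_nonneg_left (div_le_div_of_nonneg_right hf hx0.le) (by positivity)
  have hpos : 0 < ((N : ℝ) + 1) * G / x := by positivity
  have h10 := (Real.log_lt_iff_lt_exp hpos).2 (h9.trans_lt h)
  have e1 : (e * av (uu w)).re = (conj e * conj (av (uu w))).re := by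
    rw [← map_mul, Complex.conj_re]
  have e2 : (conj (-1 : ℂ) * ((x : ℂ) * ω)).re = -(x * ω.re) := by
    rw [map_neg, map_one, neg_one_mul, Complex.neg_re, Complex.re_ofReal_mul]
  have e3 : (conj e * (-1 : ℂ)).re = -e.re := by
    rw [mul_neg_one, Complex.neg_re, Complex.conj_re]
  rw [e1, e2, e3] at h10
  linarith

/-- **the certificate in polar coordinates**: `m = r e^{iγ}`, `y = x e^{-iθ}`, `e = e^{iο}`. -/
theorem polar_axis (hC : Cfg2 N z w R σ) {a x X₀ G t r γ θ ο : ℝ}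
    (hm : av (uu w) = (r : ℂ) * Complex.exp ((γ : ℂ) * Complex.I))
    (a0 : 0 ≤ a) (a1 : a < 1) (hx0 : 0 < x)
    (hs : (R : ℂ) - (x : ℂ) * Complex.exp (((-θ : ℝ) : ℂ) * Complex.I) =
      (t : ℂ) * Complex.exp ((ο : ℂ) * Complex.I)) (ht0 : 0 ≤ t) (ht : t ≤ kap a)
    (hy : a * (x - a * (x * Real.cos (θ + ο))) ≤ (1 + a) * Real.log (1 + a))
    (hX1 : 1 ≤ X₀) (hX2 : 1 + a ≤ X₀ ^ 2) (hX3 : a * x + Real.log (1 + a) ≤ a * X₀)
    (hX : a * (((N : ℝ) + 1) / N) * (X₀ - 1 / X₀) ≤ Real.log X₀)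
    (hα : a * (((N : ℝ) + 1) / N) ≤ X₀) (hG : 0 < G)
    (hf : G ≤ ‖∫ s in (0 : ℝ)..x, qq (ru w (Complex.exp (((-θ : ℝ) : ℂ) * Complex.I))) s‖) :
    N * (1 + Real.log (1 - a ^ 2) / 2)
      + a * (N * x * Real.cos (θ + ο) - ((N : ℝ) + 1) * (r * Real.cos (γ + ο)))
      + x * Real.cos θ + kap a * Real.cos ο + Real.log (((N : ℝ) + 1) * G / x) < N + 1 := by
  have hn : ∀ x : ℝ, ‖Complex.exp ((x : ℂ) * Complex.I)‖ = 1 := Complex.norm_exp_ofReal_mul_I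
  have hexp : ∀ x : ℝ, (Complex.exp ((x : ℂ) * Complex.I)).re = Real.cos x :=
    Complex.exp_ofReal_mul_I_re
  have hconj : ∀ x : ℝ, conj (Complex.exp ((x : ℂ) * Complex.I)) =
      Complex.exp (((-x : ℝ) : ℂ) * Complex.I) := by
    intro x
    rw [← Complex.exp_conj, map_mul, Complex.conj_ofReal, Complex.conj_I]
    congr 1
    push_cast
    ring
  have e1 : (conj (Complex.exp ((ο : ℂ) * Complex.I)) *
      Complex.exp (((-θ : ℝ) : ℂ) * Complex.I)).re = Real.cos (θ + ο) := by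
    rw [hconj, ← Complex.exp_add, ← add_mul, ← Complex.ofReal_add, hexp,
      show -ο + -θ = -(θ + ο) by ring, Real.cos_neg]
  have e2 : (conj (Complex.exp ((ο : ℂ) * Complex.I)) * conj (av (uu w))).re =
      r * Real.cos (γ + ο) := by
    rw [hm, map_mul, Complex.conj_ofReal, hconj, hconj]
    have : Complex.exp (((-ο : ℝ) : ℂ) * Complex.I) *
        ((r : ℂ) * Complex.exp (((-γ : ℝ) : ℂ) * Complex.I)) =
        (r : ℂ) * Complex.exp (((-(γ + ο) : ℝ) : ℂ) * Complex.I) := by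
      rw [mul_left_comm, ← Complex.exp_add]
      congr 2
      push_cast
      ring
    rw [this, Complex.re_ofReal_mul, hexp, Real.cos_neg]
  have h := cert_axis_off hC (hn ο) (hn (-θ)) a0 a1 hx0 hs ht0 ht (by rw [e1]; exact hy)
    hX1 hX2 hX3 hX hα hG hf
  rw [e1, e2, hexp, hexp, Real.cos_neg] at h
  exact h

end

end Pool.Agent.Lib.MP_af3a4a_an.P1.CHK.H28
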