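import Pool.Agent.Lib.MP_af3a4a_an.P1.CHK.H28.Axis
import Pool.Agent.Lib.MP_af3a4a_an.P1.CHK.Arith

/-!
# The axis item, integer layer: tables for `a = A/512`, `A ≤ 255`, and the check `axisOK`
(council 2, helper28)

Scale of the tables: `2^24`. `xK A / 2^24 ≤ kap a ≤ (xK A + 3) / 2^24`, the same for
`xL A` and `-log (1-a²)/2`; `log (1+a) = kap a - (-log (1-a²)/2)`.
-/

set_option autoImplicit false

namespace Pool.Agent.Lib.MP_af3a4a_an.P1.CHK.H28

open Finset MeasureTheory intervalIntegral ComplexConjugate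
open Pool.Agent.Lib.MP_af3a4a_an.SV (uu av sq EE)
open Pool.Agent.Lib.MP_af3a4a_an.P1.H80
open Pool.Agent.Lib.MP_af3a4a_an.P1.CHK.Arith

def tabXK : ℕ :=
  0x8bf4e0008b4adf008aa14e0089f82b00894f760088a72e0087ff51008757df0086b0d700860a38008564010084be31008418c7008373c30082cf2200822ae50081870b0080e3920080407a007f9dc2007efb6a007e596f007db7d2007d1692007c75ad007bd524007b34f4007a951f0079f5a20079567c0078b7ae0078193700777b150076dd4800763fcf0075a2a9007505d7007469560073cd2700733148007295b90071fa7900715f880070c4e500702a8f006f9085006ef6c8006e5d56006dc42e006d2b50006c92bb006bfa70006b626c006acab0006a333a00699c0b0069052100686e7d0067d81d006742000066ac27006616910065813d0064ec2a006457590063c2c700632e7600629a6400620691006172fc0060dfa500604c8b005fb9ad005f270c005e94a6005e027c005d708c005cded6005c4d5a005bbc17005b2b0c005a9a39005a099e0059793b0058e90d005859160057c955005739c90056aa7200561b4f00558c5f0054fda300546f1a0053e0c40053529f0052c4ac005236ea0051a95900511bf800508ec7005001c6004f74f3004e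e84f004e5bd9004dcf90004d4375004cb787004c2bc5004ba030004b14c6004a89870049fe730049738a0048e8ca00485e340047d3c8004749840046bf69004635760045abab004522070044988a00440f34004386040042fcf9004274150041eb55004162ba0040da44004051f2003fc9c3003f41b8003eb9cf003e320a003daa66003d22e5003c9b85003c1446003b8d29003b062b003a7f4e0039f891003971f40038eb76003865160037ded5003758b30036d2ae00364cc70035c6fd003541500034bbbf0034364b0033b0f300332bb70032a6960032219000319ca4003117d30030931c00300e7f002f89fb002f0591002e813f002dfd06002d78e5002cf4dd002c70eb002bed11002b694f002ae5a3002a620d0029de8e00295b240028d7d0002854920027d16800274e530026cb53002648670025c58e002542ca0024c01800243d7a0023baee002338750022b60d002233b80021b17500212f420020ad2100202b11001fa911001f2721001ea541001e2371001da1b1001d1fff001c9e5d001c1cc9001b9b43001b19cc001a9862001a1706001995b7001914750018934000181217001790fa00170fea00168ee500160dec00158cfd00150c1a00148b4100140a73001389af001308f4001288440012079c001186fe00110669001085dc00100557000f84db000f0466000e83f9000e0393000d8334000d02dc000c828a000c023f000b81fa000b01bb000a8181000a014c0009811d000900f2000880cb000800a90007808b000700710006805a0006004700058036000500280004801d000400140003800d000300080002800400020001000180000000ffff00007fff00000000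
def tabXL : ℕ :=
  0x247db4002429330023d53e002381d500232ef60022dca100228ad40022398f0021e8d100219899002148e60020f9b70020ab0c00205ce400200f3d001fc217001f7572001f294c001edda4001e927b001e47cf001dfd9f001db3ea001d6ab1001d21f1001cd9ab001c91de001c4a89001c03ab001bbd44001b7753001b31d7001aeccf001aa83c001a641c001a206f0019dd3300199a6900195810001916270018d4ae001893a300185307001812d90017d318001793c4001754db0017165f0016d84d00169aa500165d68001620930015e4280015a82500156c89001531550014f6870014bc200014821e0014488200140f4a0013d67700139e07001365fb00132e520012f70b0012c026001289a20012537f00121dbd0011e85c0011b35900117eb700114a730011168d0010e3060010afdc00107d0f00104a9f0010188c000fe6d4000fb579000f8478000f53d2000f2387000ef396000ec3ff000e94c1000e65dc000e3750000e091c000ddb40000dadbc000d808f000d53b9000d273a000cfb10000ccf3d000ca3c0000c7897000c4dc4000c2346000bf91b000bcf45000ba5c3000b7c94000b53b8000b2b2f000b02f9000adb15000ab383000a8c42000a6553000a3eb5000a18690009f26c0009ccc00009a7640009825800095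d9c0009392f000915110008f1420008cdc10008aa8e000887aa00086514000842cb000820cf0007ff210007ddc00007bcab00079be300077b6600075b3600073b5200071bba0006fc6c0006dd6a0006beb30006a047000682250006644e000646c00006297d00060c840005efd40005d36d0005b75000059b7c00057ff0000564ad000549b300052f01000514980004fa760004e09c0004c70a0004adbf000494bb00047bff0004638a00044b5b0004337300041bd2000404770003ed630003d6940003c00c0003a9c9000393cc00037e15000368a30003537600033e8f000329ec0003158e000301750002eda10002da110002c6c60002b3bf0002a0fc00028e7d00027c4200026a4a0002589700024727000235fb000225120002146c000204090001f3ea0001e40d0001d4740001c51d0001b6090001a737000198a800018a5c00017c5100016e8900016104000153c0000146be000139fe00012d81000121440001154a000109910000fe1a0000f2e40000e7f00000dd3d0000d2cc0000c89b0000beac0000b4fe0000ab910000a2650000997a000090d0000088670000803f00007857000070b00000694a0000622400005b3f0000549a00004e36000048130000423000003c8d0000372a0000320800002d2600002885000024240000200300001c2200001881000015200000120000000f1f00000c7f00000a1f000007ff0000061f0000047f0000031f000001ff0000011f0000007f0000001f00000000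

/-- `kap a` down -/
def xK (A : ℕ) : ℕ := Nat.mod (Nat.shiftRight tabXK (Nat.mul 32 A)) 4294967296
/-- `-log (1-a²)/2` down -/
def xL (A : ℕ) : ℕ := Nat.mod (Nat.shiftRight tabXL (Nat.mul 32 A)) 4294967296

/-- the check of one entry of the tables -/
def tabX1 (A : ℕ) : Bool :=
  Nat.ble (ep (131072 * xK A) * (512 - A)) ((512 + A) * 1099511627776) &&
    (Nat.ble ((512 + A) * 1099511627776) ((512 - A) * epL (131072 * (xK A + 3))) &&
    (Nat.ble ((262144 - A * A) * 1099511627776) (262144 * emL (131072 * xL A)) &&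
    Nat.ble (Arith.em (131072 * (xL A + 3)) * 262144) ((262144 - A * A) * 1099511627776)))

theorem tabX_ok : (List.range 255).all (fun A => tabX1 (A + 1)) = true := by
  decide +kernel

theorem tabX {A : ℕ} (h1 : 1 ≤ A) (h2 : A ≤ 255) :
    ep (131072 * xK A) * (512 - A) ≤ (512 + A) * 1099511627776 ∧
    (512 + A) * 1099511627776 ≤ (512 - A) * epL (131072 * (xK A + 3)) ∧
    (262144 - A * A) * 1099511627776 ≤ 262144 * emL (131072 * xL A) ∧
    Arith.em (131072 * (xL A + 3)) * 262144 ≤ (262144 - A * A) * 1099511627776 := by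
  have h := List.all_eq_true.1 tabX_ok (A - 1) (List.mem_range.2 (by omega))
  rw [Nat.sub_add_cancel h1] at h
  unfold tabX1 at h
  simp only [Bool.and_eq_true, Nat.ble_eq] at h
  exact h

theorem half_log {a y : ℝ} (a0 : 0 ≤ a) (a1 : a < 1) (h : Real.exp (2 * y) * (1 - a) ≤ 1 + a) :
    y ≤ kap a := by
  have h1 : 0 < 1 - a := by linarith only [a1]
  have h2 : Real.exp (2 * y) ≤ (1 + a) / (1 - a) := by rwa [le_div_iff₀ h1]
  have h3 := Real.log_le_log (Real.exp_pos _) h2
  rw [Real.log_exp, Real.log_div (by linarith only [a0]) h1.ne'] at h3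
  unfold kap
  linarith only [h3]

theorem half_log' {a y : ℝ} (a0 : 0 ≤ a) (a1 : a < 1) (h : 1 + a ≤ (1 - a) * Real.exp (2 * y)) :
    kap a ≤ y := by
  have h1 : 0 < 1 - a := by linarith only [a1]
  have h2 : (1 + a) / (1 - a) ≤ Real.exp (2 * y) := by rwa [div_le_iff₀' h1]
  have h3 := Real.log_le_log (by positivity) h2
  rw [Real.log_exp, Real.log_div (by linarith only [a0]) h1.ne'] at h3
  unfold kap
  linarith only [h3]

section tables

variable {A : ℕ} (h1 : 1 ≤ A) (h2 : A ≤ 255)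

include h1 h2

theorem xK_le : (xK A : ℝ) / 2 ^ 24 ≤ kap (A / 512) := by
  have hA : (A : ℝ) ≤ 255 := by exact_mod_cast h2
  have hA0 : (0 : ℝ) ≤ A := Nat.cast_nonneg _
  have h := (tabX h1 h2).1
  have h' : (ep (131072 * xK A) : ℝ) * ((512 : ℝ) - A) ≤ (512 + A) * 1099511627776 := by
    have h3 : ((ep (131072 * xK A) * (512 - A) : ℕ) : ℝ) ≤
        (((512 + A) * 1099511627776 : ℕ) : ℝ) := by exact_mod_cast h
    rw [Nat.cast_mul, Nat.cast_sub (by omega : A ≤ 512)] at h3
    push_cast at h3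
    exact h3
  apply half_log (by positivity) (by rw [div_lt_one (by norm_num)]; linarith only [hA])
  have h3 := ep_spec (131072 * xK A)
  have e : 2 * ((xK A : ℝ) / 2 ^ 24) = ((131072 * xK A : ℕ) : ℝ) / 2 ^ 40 := by
    push_cast
    ring
  rw [e]
  have h4 := mul_le_mul_of_nonneg_right h3 (show (0 : ℝ) ≤ 1 - A / 512 by
    rw [sub_nonneg, div_le_one (by norm_num)]; linarith only [hA])
  refine h4.trans ?_
  have e1 : (ep (131072 * xK A) : ℝ) / 2 ^ 40 * (1 - A / 512) =
      ep (131072 * xK A) * (512 - A) / (2 ^ 40 * 512) := by field_simp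
  rw [e1, div_le_iff₀ (by positivity)]
  refine h'.trans (le_of_eq ?_)
  ring

theorem kap_le : kap (A / 512) ≤ ((xK A : ℝ) + 3) / 2 ^ 24 := by
  have hA : (A : ℝ) ≤ 255 := by exact_mod_cast h2
  have hA0 : (0 : ℝ) ≤ A := Nat.cast_nonneg _
  have h := (tabX h1 h2).2.1
  have h' : ((512 : ℝ) + A) * 1099511627776 ≤ (512 - A) * (epL (131072 * (xK A + 3)) : ℝ) := by
    have h3 : (((512 + A) * 1099511627776 : ℕ) : ℝ) ≤
        (((512 - A) * epL (131072 * (xK A + 3)) : ℕ) : ℝ) := by exact_mod_cast h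
    rw [Nat.cast_mul, Nat.cast_mul, Nat.cast_sub (by omega : A ≤ 512)] at h3
    push_cast at h3
    exact h3
  apply half_log' (by positivity) (by rw [div_lt_one (by norm_num)]; linarith only [hA])
  have h3 := epL_spec (131072 * (xK A + 3))
  have e : 2 * (((xK A : ℝ) + 3) / 2 ^ 24) = ((131072 * (xK A + 3) : ℕ) : ℝ) / 2 ^ 40 := by
    push_cast
    ring
  rw [e]
  have h4 := mul_le_mul_of_nonneg_left h3 (show (0 : ℝ) ≤ 1 - A / 512 by
    rw [sub_nonneg, div_le_one (by norm_num)]; linarith only [hA])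
  refine le_trans ?_ h4
  have e1 : (1 - (A : ℝ) / 512) * ((epL (131072 * (xK A + 3)) : ℝ) / 2 ^ 40) =
      (512 - A) * epL (131072 * (xK A + 3)) / (2 ^ 40 * 512) := by field_simp
  rw [e1, le_div_iff₀ (by positivity)]
  refine le_trans (le_of_eq ?_) h'
  ring

theorem xL_le : (xL A : ℝ) / 2 ^ 24 ≤ -Real.log (1 - (A / 512) ^ 2) / 2 := by
  have hA : (A : ℝ) ≤ 255 := by exact_mod_cast h2
  have hA0 : (0 : ℝ) ≤ A := Nat.cast_nonneg _
  have hAA : A * A ≤ 262144 := by nlinarith only [h2]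
  have h := (tabX h1 h2).2.2.1
  have h' : ((262144 : ℝ) - A * A) * 1099511627776 ≤ 262144 * (emL (131072 * xL A) : ℝ) := by
    have h3 : (((262144 - A * A) * 1099511627776 : ℕ) : ℝ) ≤
        ((262144 * emL (131072 * xL A) : ℕ) : ℝ) := by exact_mod_cast h
    rw [Nat.cast_mul, Nat.cast_mul, Nat.cast_sub hAA] at h3
    push_cast at h3
    exact h3
  have hpos : 0 < 1 - ((A : ℝ) / 512) ^ 2 := by
    rw [div_pow, sub_pos, div_lt_one (by norm_num)]
    nlinarith only [hA]
  have h3 := emL_spec (131072 * xL A)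
  have e : -(((131072 * xL A : ℕ) : ℝ) / 2 ^ 40) = -(2 * ((xL A : ℝ) / 2 ^ 24)) := by
    push_cast
    ring
  rw [e] at h3
  have h4 : 1 - ((A : ℝ) / 512) ^ 2 ≤ Real.exp (-(2 * ((xL A : ℝ) / 2 ^ 24))) := by
    refine le_trans ?_ h3
    rw [le_div_iff₀ (by positivity), ← mul_le_mul_iff_of_pos_left (show (0 : ℝ) < 262144 by norm_num)]
    refine le_trans (le_of_eq ?_) h'
    ring
  have h5 := Real.log_le_log hpos h4
  rw [Real.log_exp] at h5
  linarith only [h5]

theorem lam_le : -Real.log (1 - (A / 512) ^ 2) / 2 ≤ ((xL A : ℝ) + 3) / 2 ^ 24 := by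
  have hA : (A : ℝ) ≤ 255 := by exact_mod_cast h2
  have hA0 : (0 : ℝ) ≤ A := Nat.cast_nonneg _
  have hAA : A * A ≤ 262144 := by nlinarith only [h2]
  have h := (tabX h1 h2).2.2.2
  have h' : (Arith.em (131072 * (xL A + 3)) : ℝ) * 262144 ≤ (262144 - A * A) * 1099511627776 := by
    have h3 : ((Arith.em (131072 * (xL A + 3)) * 262144 : ℕ) : ℝ) ≤
        (((262144 - A * A) * 1099511627776 : ℕ) : ℝ) := by exact_mod_cast h
    rw [Nat.cast_mul, Nat.cast_mul, Nat.cast_sub hAA] at h3
    push_cast at h3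
    exact h3
  have h3 := em_spec (131072 * (xL A + 3))
  have e : -(((131072 * (xL A + 3) : ℕ) : ℝ) / 2 ^ 40) = -(2 * (((xL A : ℝ) + 3) / 2 ^ 24)) := by
    push_cast
    ring
  rw [e] at h3
  have h4 : Real.exp (-(2 * (((xL A : ℝ) + 3) / 2 ^ 24))) ≤ 1 - ((A : ℝ) / 512) ^ 2 := by
    refine h3.trans ?_
    rw [div_le_iff₀ (by positivity), ← mul_le_mul_iff_of_pos_right (show (0 : ℝ) < 262144 by norm_num)]
    refine h'.trans (le_of_eq ?_)
    ring
  have h5 := Real.log_le_log (Real.exp_pos _) h4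
  rw [Real.log_exp] at h5
  linarith only [h5]

/-- `log (1+a)` from below -/
theorem log_ge : ((xK A : ℝ) - xL A - 3) / 2 ^ 24 ≤ Real.log (1 + A / 512) := by
  have hA : (A : ℝ) ≤ 255 := by exact_mod_cast h2
  have hA0 : (0 : ℝ) ≤ A := Nat.cast_nonneg _
  have h3 := xK_le h1 h2
  have h4 := lam_le h1 h2
  rw [log_one_sub_sq (by linarith only [div_nonneg hA0 (show (0:ℝ) ≤ 512 by norm_num)])
    (by rw [div_lt_one (by norm_num)]; linarith only [hA])] at h4
  unfold kap at h3
  have e : ((xK A : ℝ) - xL A - 3) / 2 ^ 24 = xK A / 2 ^ 24 - (xL A + 3) / 2 ^ 24 := by ring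
  rw [e]
  linarith only [h3, h4]

/-- `log (1+a)` from above -/
theorem log_le : Real.log (1 + A / 512) ≤ ((xK A : ℝ) + 3 - xL A) / 2 ^ 24 := by
  have hA : (A : ℝ) ≤ 255 := by exact_mod_cast h2
  have hA0 : (0 : ℝ) ≤ A := Nat.cast_nonneg _
  have h3 := kap_le h1 h2
  have h4 := xL_le h1 h2
  rw [log_one_sub_sq (by linarith only [div_nonneg hA0 (show (0:ℝ) ≤ 512 by norm_num)])
    (by rw [div_lt_one (by norm_num)]; linarith only [hA])] at h4
  unfold kap at h3
  have e : ((xK A : ℝ) + 3 - xL A) / 2 ^ 24 = (xK A + 3) / 2 ^ 24 - xL A / 2 ^ 24 := by ring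
  rw [e]
  linarith only [h3, h4]

end tables

/-- the point `X₀`, scale `1024` -/
def axX (A j Q kL lL : ℕ) : ℕ :=
  Nat.succ (Nat.add (Nat.mul (Nat.mul A j) 32768) (Nat.mul (Nat.sub (Nat.add kL 3) lL) Q) /
    Nat.mul (Nat.mul A 32) Q)

/-- the check: `a = A/512`, `x = j/Q`, `R ∈ [R0/1024, R1/1024]`, all `N ≥ Na` -/
def axisOK (Na A j Q R0 R1 : ℕ) : Bool :=
  ev (xK A) fun kL => ev (xL A) fun lL => ev (axX A j Q kL lL) fun X =>
    Nat.ble 1 A && (Nat.ble A 255 && (Nat.ble 1 j && (Nat.ble 1 Q && (Nat.ble 1 Na &&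
    (Nat.ble (Nat.mul 1024 j) (Nat.mul Q R0) &&
    (Nat.ble (Nat.mul (Nat.mul R1 Q) 16384) (Nat.add (Nat.mul j 16777216) (Nat.mul kL Q)) &&
    (Nat.ble (Nat.mul (Nat.mul (Nat.mul A j) (Nat.sub 512 A)) 16777216)
      (Nat.mul (Nat.mul (Nat.mul 512 Q) (Nat.add 512 A)) (Nat.sub kL (Nat.add lL 3))) &&
    (Nat.ble 1024 X && (Nat.ble (Nat.mul (Nat.add 512 A) 2048) (Nat.mul X X) &&
    (Nat.ble (Nat.mul (Nat.mul 2 A) (Nat.succ Na)) (Nat.mul X Na) &&
    Nat.ble (ep (Nat.succ (Nat.mul (Nat.mul (Nat.mul A (Nat.succ Na))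
      (Nat.sub (Nat.mul X X) 1048576)) 2097152 / Nat.mul Na X))) (Nat.mul X 1073741824)))))))))))

section sound

variable {N : ℕ} {z w : Fin N → ℂ} {R : ℝ} {σ : Fin N → ℂ}

/-- **soundness of the axis item** -/
theorem axis_sound {Na A j Q R0 R1 : ℕ} (h : axisOK Na A j Q R0 R1 = true)
    (hC : Cfg2 N z w R σ) (hN : Na ≤ N) (hR0 : (R0 : ℝ) / 1024 ≤ R) (hR1 : R ≤ (R1 : ℝ) / 1024)
    {G : ℝ} (hG : 0 < G) (hf : G ≤ ‖∫ s in (0 : ℝ)..((j : ℝ) / Q), qq (uu w) s‖) :
    N * (1 - ((xL A : ℝ) + 3) / 2 ^ 24)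
      + (A : ℝ) / 512 * (N * ((j : ℝ) / Q) - ((N : ℝ) + 1) * (av (uu w)).re)
      + (j : ℝ) / Q + (xK A : ℝ) / 2 ^ 24 + Real.log (((N : ℝ) + 1) * G / ((j : ℝ) / Q)) < N + 1 := by
  unfold axisOK at h
  simp only [ev_eq, Nat.add_eq, Nat.mul_eq, Nat.sub_eq, Nat.succ_eq_add_one,
    Bool.and_eq_true, Nat.ble_eq] at h
  obtain ⟨c1, c2, c3, c4, c5, c6, c7, c8, c9, c10, c11, c12⟩ := h
  obtain ⟨X, hX⟩ : ∃ X, X = axX A j Q (xK A) (xL A) := ⟨_, rfl⟩
  rw [← hX] at c9 c10 c11 c12
  have b1 := xK_le c1 c2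
  have b2 := kap_le c1 c2
  have b3 := xL_le c1 c2
  have b4 := lam_le c1 c2
  have b5 := log_ge c1 c2
  have b6 := log_le c1 c2
  have hAr : (A : ℝ) ≤ 255 := by exact_mod_cast c2
  have hA1 : (1 : ℝ) ≤ A := by exact_mod_cast c1
  have hj1 : (1 : ℝ) ≤ j := by exact_mod_cast c3
  have hQ1 : (1 : ℝ) ≤ Q := by exact_mod_cast c4
  have hNa : (1 : ℝ) ≤ Na := by exact_mod_cast c5
  have hNr : (Na : ℝ) ≤ N := by exact_mod_cast hN
  have hX1 : (1024 : ℝ) ≤ X := by exact_mod_cast c9
  have hA0 : (0 : ℝ) < A := by linarith only [hA1]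
  have hj0 : (0 : ℝ) < j := by linarith only [hj1]
  have hQ0 : (0 : ℝ) < Q := by linarith only [hQ1]
  have hNa0 : (0 : ℝ) < Na := by linarith only [hNa]
  have hN0 : (0 : ℝ) < N := by linarith only [hNa, hNr]
  have hX0 : (0 : ℝ) < X := by linarith only [hX1]
  have hx0 : 0 < (j : ℝ) / Q := div_pos hj0 hQ0
  have ha0 : 0 ≤ (A : ℝ) / 512 := by positivity
  have ha1 : (A : ℝ) / 512 < 1 := by rw [div_lt_one (by norm_num)]; linarith only [hAr]
  have d6 : 1024 * (j : ℝ) ≤ Q * R0 := by exact_mod_cast c6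
  have d7 : (R1 : ℝ) * Q * 16384 ≤ j * 16777216 + xK A * Q := by exact_mod_cast c7
  have d10 : (512 + (A : ℝ)) * 2048 ≤ X * X := by exact_mod_cast c10
  have d11 : 2 * (A : ℝ) * (Na + 1) ≤ X * Na := by exact_mod_cast c11
  have hfr : ((N : ℝ) + 1) / N ≤ ((Na : ℝ) + 1) / Na := by
    rw [div_le_div_iff₀ hN0 hNa0]
    linarith only [hNr]
  have hA' : (A : ℝ) / 512 * (((N : ℝ) + 1) / N) ≤ (A : ℝ) / 512 * (((Na : ℝ) + 1) / Na) :=
    mul_le_mul_of_nonneg_left hfr ha0
  have key := cert_axis hC (a := (A : ℝ) / 512) (x := (j : ℝ) / Q) (X₀ := (X : ℝ) / 1024) (G := G)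
    ha0 ha1 hx0 ?_ ?_ ?_ ?_ ?_ ?_ ?_ ?_ hG hf
  · have e1 : (N : ℝ) * (1 - ((xL A : ℝ) + 3) / 2 ^ 24) ≤
        N * (1 + Real.log (1 - ((A : ℝ) / 512) ^ 2) / 2) := by
      apply mul_le_mul_of_nonneg_left _ hN0.le
      linarith only [b4]
    linarith only [b1, key, e1]
  · refine le_trans ?_ hR0
    rw [div_le_div_iff₀ hQ0 (by norm_num)]
    linarith only [d6]
  · refine hR1.trans ?_
    refine le_trans ?_ (add_le_add le_rfl b1)
    rw [div_add_div _ _ hQ0.ne' (by norm_num), div_le_div_iff₀ (by norm_num) (by positivity)]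
    linarith only [d7]
  · have d8 : (A : ℝ) * j * (512 - A) * 16777216 ≤
        512 * Q * (512 + A) * ((xK A - (xL A + 3) : ℕ) : ℝ) := by
      have := c8
      rw [← Nat.cast_le (α := ℝ)] at this
      rw [Nat.cast_mul, Nat.cast_mul, Nat.cast_mul, Nat.cast_sub (by omega : A ≤ 512)] at this
      push_cast at this ⊢
      exact this
    have d8' : ((xK A - (xL A + 3) : ℕ) : ℝ) / 2 ^ 24 ≤ Real.log (1 + A / 512) := by
      rw [div_le_iff₀ (by positivity)]
      apply cast_sub_le
      · exact mul_nonneg (Real.log_nonneg (by linarith only [hA1])) (by positivity)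
      · rw [div_le_iff₀ (by positivity)] at b5
        push_cast
        linarith only [b5]
    have h1 : (A : ℝ) / 512 * ((j : ℝ) / Q) * (1 - A / 512) ≤
        (1 + A / 512) * (((xK A - (xL A + 3) : ℕ) : ℝ) / 2 ^ 24) := by
      have e1 : (A : ℝ) / 512 * ((j : ℝ) / Q) * (1 - A / 512) =
          A * j * (512 - A) * 16777216 / (512 * Q * 512 * 16777216) := by
        field_simp
      have e2 : (1 + (A : ℝ) / 512) * (((xK A - (xL A + 3) : ℕ) : ℝ) / 2 ^ 24) =
          512 * Q * (512 + A) * ((xK A - (xL A + 3) : ℕ) : ℝ) / (512 * Q * 512 * 16777216) := by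
        field_simp
        norm_num
      rw [e1, e2]
      exact div_le_div_of_nonneg_right d8 (by positivity)
    exact h1.trans (mul_le_mul_of_nonneg_left d8' (by linarith only [hA1]))
  · rw [le_div_iff₀ (by norm_num)]
    linarith only [hX1]
  · rw [div_pow, le_div_iff₀ (by norm_num)]
    have : (X : ℝ) ^ 2 = X * X := sq _
    rw [this]
    linarith only [d10]
  · have h3 := Nat.lt_mul_div_succ (A * j * 32768 + (xK A + 3 - xL A) * Q)
      (show 0 < A * 32 * Q by positivity)
    have h4 : A * j * 32768 + (xK A + 3 - xL A) * Q ≤ A * 32 * Q * X := by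
      rw [hX]
      unfold axX
      simp only [Nat.add_eq, Nat.mul_eq, Nat.sub_eq, Nat.succ_eq_add_one]
      exact h3.le
    have h5 : (A : ℝ) * j * 32768 + ((xK A + 3 - xL A : ℕ) : ℝ) * Q ≤ A * 32 * Q * X := by
      exact_mod_cast h4
    have h6 : (xK A : ℝ) + 3 - xL A ≤ ((xK A + 3 - xL A : ℕ) : ℝ) := by
      have := sub_le_cast (xK A + 3) (xL A)
      push_cast at this
      exact this
    have h7 := mul_le_mul_of_nonneg_right h6 hQ0.le
    refine (add_le_add le_rfl b6).trans ?_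
    have e1 : (A : ℝ) / 512 * ((j : ℝ) / Q) + ((xK A : ℝ) + 3 - xL A) / 2 ^ 24 =
        (A * j * 32768 + ((xK A : ℝ) + 3 - xL A) * Q) / (Q * 2 ^ 24) := by
      field_simp
      ring
    have e2 : (A : ℝ) / 512 * ((X : ℝ) / 1024) = A * 32 * Q * X / (Q * 2 ^ 24) := by
      field_simp
      norm_num
    rw [e1, e2]
    exact div_le_div_of_nonneg_right (by linarith only [h5, h7]) (by positivity)
  · -- the logarithmic condition
    have hX20 : 1048576 ≤ X * X := le_trans (by norm_num) (Nat.mul_le_mul c9 c9)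
    have hX20' : (1048576 : ℝ) ≤ X * X := by exact_mod_cast hX20
    have hy0 : 0 ≤ (X : ℝ) / 1024 - 1 / (X / 1024) := by
      have e1 : (X : ℝ) / 1024 - 1 / (X / 1024) = (X * X - 1048576) / (1024 * X) := by
        field_simp
        norm_num
      rw [e1]
      exact div_nonneg (by linarith only [hA1, d10]) (by positivity)
    refine (mul_le_mul_of_nonneg_right hA' hy0).trans ?_
    obtain ⟨p, hp⟩ : ∃ p, p = A * (Na + 1) * (X * X - 1048576) * 2097152 / (Na * X) + 1 := ⟨_, rfl⟩
    rw [← hp] at c12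
    have h3 : (A : ℝ) / 512 * (((Na : ℝ) + 1) / Na) * ((X : ℝ) / 1024 - 1 / (X / 1024)) ≤
        (p : ℝ) / 2 ^ 40 := by
      have h4 := real_le_div (A * (Na + 1) * (X * X - 1048576) * 2097152) (Na * X) (by positivity)
      rw [← hp] at h4
      rw [Nat.cast_mul, Nat.cast_mul, Nat.cast_mul, Nat.cast_sub hX20] at h4
      push_cast at h4
      rw [le_div_iff₀ (by positivity)]
      refine le_trans (le_of_eq ?_) h4
      field_simp
      ring
    have h5 := ep_spec p
    have h6 : (ep p : ℝ) ≤ X * 1073741824 := by exact_mod_cast c12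
    rw [Real.le_log_iff_exp_le (by positivity)]
    refine (Real.exp_le_exp.2 h3).trans (h5.trans ?_)
    rw [div_le_div_iff₀ (by positivity) (by norm_num)]
    refine (mul_le_mul_of_nonneg_right h6 (by norm_num)).trans (le_of_eq ?_)
    ring
  · refine hA'.trans ?_
    rw [div_mul_div_comm, div_le_div_iff₀ (by positivity) (by norm_num)]
    linarith only [d11]

end sound

end Pool.Agent.Lib.MP_af3a4a_an.P1.CHK.H28
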